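import Mathlib
import Pool.Agent.R528.RM.Gold

set_option autoImplicit false
set_option linter.unusedSectionVars false

/-! # An exponential inequality for sparse predictable sums -/

open MeasureTheory Filter Set
open scoped ENNReal Topology

namespace Pool.Agent.U310.Idx

open Pool.Agent.R528.RM

variable {Ω : Type} {m0 : MeasurableSpace Ω} {μ : Measure Ω} [IsProbabilityMeasure μ]
  {ℱ : Filtration ℕ m0} {A : ℕ → Set Ω}

/-- the sum of the absolute weights -/
noncomputable def Vw (w : ℕ → Ω → ℝ) (M : ℕ) (ω : Ω) : ℝ := ∑ k ∈ Finset.range M, |w k ω|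

lemma Vw_nonneg (w : ℕ → Ω → ℝ) (M : ℕ) (ω : Ω) : 0 ≤ Vw w M ω := Finset.sum_nonneg fun _ _ => abs_nonneg _

lemma Vw_meas (a : ℕ) (w : ℕ → Ω → ℝ) (hw : ∀ k, StronglyMeasurable[ℱ (a + k)] (w k)) (M : ℕ) :
    StronglyMeasurable[ℱ (a + M)] (Vw w M) := by
  have h1 : Vw w M = ∑ k ∈ Finset.range M, (fun ω => |w k ω|) := by
    funext ω
    simp [Vw]
  rw [h1]
  refine Finset.stronglyMeasurable_sum _ fun k hk => ?_
  have hk' := Finset.mem_range.1 hk
  have h2 : StronglyMeasurable[ℱ (a + M)] (w k) := (hw k).mono (ℱ.mono (by omega))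
  exact continuous_abs.comp_stronglyMeasurable h2

theorem Sv_mgf (hA : ∀ n, MeasurableSet[ℱ n] (A n)) (a : ℕ) (w : ℕ → Ω → ℝ)
    (hw : ∀ k, StronglyMeasurable[ℱ (a + k)] (w k)) (hw1 : ∀ k ω, |w k ω| ≤ 1) (t : ℝ) (M : ℕ) :
    ∫ ω, Real.exp (t * Sw μ ℱ A a w M ω - t ^ 2 / 2 * Vw w M ω) ∂μ ≤ 1 := by
  have hmeas : ∀ M, StronglyMeasurable[ℱ (a + M)] (fun ω => Real.exp (t * Sw μ ℱ A a w M ω - t ^ 2 / 2 * Vw w M ω)) := by
    intro M
    refine Real.continuous_exp.comp_stronglyMeasurable ?_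
    exact @StronglyMeasurable.sub _ _ _ _ (ℱ (a + M)) _ _ _ ((Sw_meas (μ := μ) hA a w hw M).const_mul t)
      ((Vw_meas a w hw M).const_mul _)
  have hbd : ∀ M, ∀ᵐ ω ∂μ, ‖Real.exp (t * Sw μ ℱ A a w M ω - t ^ 2 / 2 * Vw w M ω)‖ ≤ Real.exp (|t| * M) := by
    intro M
    filter_upwards [Sw_bound (μ := μ) (ℱ := ℱ) hA a w hw1 M] with ω hω
    rw [Real.norm_eq_abs, abs_of_pos (Real.exp_pos _)]
    apply Real.exp_le_exp.2
    have h1 : 0 ≤ t ^ 2 / 2 * Vw w M ω := mul_nonneg (by positivity) (Vw_nonneg w M ω)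
    have h2 : t * Sw μ ℱ A a w M ω ≤ |t| * M := by
      refine (le_abs_self _).trans ?_
      rw [abs_mul]
      exact mul_le_mul_of_nonneg_left hω (abs_nonneg t)
    linarith
  have hint : ∀ M, Integrable (fun ω => Real.exp (t * Sw μ ℱ A a w M ω - t ^ 2 / 2 * Vw w M ω)) μ := fun M =>
    Integrable.of_bound ((hmeas M).mono (ℱ.le _)).aestronglyMeasurable _ (hbd M)
  induction M with
  | zero => simp [Sw, Vw]
  | succ M ih =>
    set D := dens μ ℱ A (a + M) with hD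
    set I := (A (a + M + 1)).indicator (fun _ => (1 : ℝ)) with hI
    set E : Ω → ℝ := fun ω => Real.exp (t * Sw μ ℱ A a w M ω - t ^ 2 / 2 * Vw w M ω) with hE
    set F : Ω → ℝ := fun ω => E ω * (Real.exp (- (t ^ 2 / 2 * |w M ω|)) * Real.sinh (t * w M ω)) with hF
    have hs : ∀ ω, Sw μ ℱ A a w (M + 1) ω = Sw μ ℱ A a w M ω + w M ω * (I ω - D ω) := by
      intro ω
      unfold Sw
      rw [Finset.sum_range_succ]
    have hv : ∀ ω, Vw w (M + 1) ω = Vw w M ω + |w M ω| := by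
      intro ω
      unfold Vw
      rw [Finset.sum_range_succ]
    have h01 := dens01 (μ := μ) (ℱ := ℱ) hA (a + M)
    have hpt : ∀ᵐ ω ∂μ, Real.exp (t * Sw μ ℱ A a w (M + 1) ω - t ^ 2 / 2 * Vw w (M + 1) ω) ≤
        E ω + (F ω * I ω - F ω * D ω) := by
      filter_upwards [h01] with ω hω
      have hI0 : 0 ≤ I ω := indicator_nonneg (fun _ _ => zero_le_one) _
      have hI1 : I ω ≤ 1 := indicator_le_self' (fun _ _ => zero_le_one) ω
      have hx : |I ω - D ω| ≤ 1 := by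
        rw [abs_le]
        constructor <;> linarith [hω.1, hω.2]
      have h2 := Real.exp_mul_le_cosh_add_mul_sinh hx (t * w M ω)
      have h3 : Real.cosh (t * w M ω) ≤ Real.exp (t ^ 2 / 2 * |w M ω|) := by
        refine (Real.cosh_le_exp_half_sq _).trans (Real.exp_le_exp.2 ?_)
        have h4 := hw1 M ω
        have h5 : (w M ω) ^ 2 ≤ |w M ω| := by
          rw [← sq_abs]
          nlinarith [abs_nonneg (w M ω)]
        have h6 : (0 : ℝ) ≤ t ^ 2 / 2 := by positivity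
        calc (t * w M ω) ^ 2 / 2 = t ^ 2 / 2 * (w M ω) ^ 2 := by ring
          _ ≤ _ := mul_le_mul_of_nonneg_left h5 h6
      have h7 : t * Sw μ ℱ A a w (M + 1) ω - t ^ 2 / 2 * Vw w (M + 1) ω =
          (t * Sw μ ℱ A a w M ω - t ^ 2 / 2 * Vw w M ω) + (-(t ^ 2 / 2 * |w M ω|)) + t * w M ω * (I ω - D ω) := by
        rw [hs, hv]; ring
      rw [h7, Real.exp_add, Real.exp_add]
      have h8 : Real.exp (t * w M ω * (I ω - D ω)) ≤
          Real.exp (t ^ 2 / 2 * |w M ω|) + (I ω - D ω) * Real.sinh (t * w M ω) := by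
        rw [mul_comm (t * w M ω)]
        linarith
      have h9 : 0 ≤ E ω * Real.exp (-(t ^ 2 / 2 * |w M ω|)) := by positivity
      have h10 := mul_le_mul_of_nonneg_left h8 h9
      have h11 : Real.exp (-(t ^ 2 / 2 * |w M ω|)) * Real.exp (t ^ 2 / 2 * |w M ω|) = 1 := by
        rw [← Real.exp_add]; simp
      calc _ ≤ E ω * Real.exp (-(t ^ 2 / 2 * |w M ω|)) *
            (Real.exp (t ^ 2 / 2 * |w M ω|) + (I ω - D ω) * Real.sinh (t * w M ω)) := h10
        _ = E ω * (Real.exp (-(t ^ 2 / 2 * |w M ω|)) * Real.exp (t ^ 2 / 2 * |w M ω|)) +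
            (E ω * (Real.exp (-(t ^ 2 / 2 * |w M ω|)) * Real.sinh (t * w M ω)) * I ω -
              E ω * (Real.exp (-(t ^ 2 / 2 * |w M ω|)) * Real.sinh (t * w M ω)) * D ω) := by ring
        _ = _ := by rw [h11, mul_one]
    have hFm : StronglyMeasurable[ℱ (a + M)] F := by
      refine @StronglyMeasurable.mul _ _ _ _ (ℱ (a + M)) _ _ _ (hmeas M) ?_
      refine @StronglyMeasurable.mul _ _ _ _ (ℱ (a + M)) _ _ _ ?_ ?_
      · refine Real.continuous_exp.comp_stronglyMeasurable ?_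
        have h1 : StronglyMeasurable[ℱ (a + M)] (fun ω => |w M ω|) := continuous_abs.comp_stronglyMeasurable (hw M)
        exact (h1.const_mul (t ^ 2 / 2)).neg
      · exact Real.continuous_sinh.comp_stronglyMeasurable ((hw M).const_mul t)
    have hFb : ∀ᵐ ω ∂μ, ‖F ω‖ ≤ Real.exp (|t| * M) * Real.cosh t := by
      filter_upwards [hbd M] with ω hω
      simp only [hF]
      rw [norm_mul, norm_mul]
      have h1 : ‖Real.exp (-(t ^ 2 / 2 * |w M ω|))‖ ≤ 1 := by
        rw [Real.norm_eq_abs, abs_of_pos (Real.exp_pos _)]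
        apply Real.exp_le_one_iff.2
        have : 0 ≤ t ^ 2 / 2 * |w M ω| := by positivity
        linarith
      have h2 : ‖Real.sinh (t * w M ω)‖ ≤ Real.cosh t := by
        have h3 : |Real.sinh (t * w M ω)| ≤ Real.cosh (t * w M ω) := by
          rw [abs_le]
          constructor
          · have := Real.cosh_add_sinh (t * w M ω)
            have h4 := Real.exp_pos (t * w M ω)
            linarith
          · exact (Real.sinh_lt_cosh _).le
        refine h3.trans ?_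
        rw [Real.cosh_le_cosh, abs_mul]
        calc |t| * |w M ω| ≤ |t| * 1 := mul_le_mul_of_nonneg_left (hw1 M ω) (abs_nonneg t)
          _ = |t| := mul_one _
      refine mul_le_mul hω ?_ (by positivity) (Real.exp_pos _).le
      calc _ ≤ 1 * Real.cosh t := mul_le_mul h1 h2 (norm_nonneg _) zero_le_one
        _ = _ := one_mul _
    have hpull := pull_A (μ := μ) hA (a + M) hFm _ hFb
    have hFam : AEStronglyMeasurable F μ := (hFm.mono (ℱ.le _)).aestronglyMeasurable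
    have hIam : AEStronglyMeasurable I μ :=
      ((stronglyMeasurable_const.indicator (ℱ.le _ _ (hA (a + M + 1))))).aestronglyMeasurable
    have hDam : AEStronglyMeasurable D μ := ((dens_meas (a + M)).mono (ℱ.le _)).aestronglyMeasurable
    have i1 : Integrable (fun ω => F ω * I ω) μ := by
      refine Integrable.of_bound (hFam.mul hIam) (Real.exp (|t| * M) * Real.cosh t) ?_
      filter_upwards [hFb] with ω hω
      rw [norm_mul]
      have hI1 : ‖I ω‖ ≤ 1 := by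
        rw [Real.norm_eq_abs, abs_of_nonneg (indicator_nonneg (fun _ _ => zero_le_one) _)]
        exact indicator_le_self' (fun _ _ => zero_le_one) ω
      calc _ ≤ (Real.exp (|t| * M) * Real.cosh t) * 1 := mul_le_mul hω hI1 (norm_nonneg _) (by positivity)
        _ = _ := mul_one _
    have i2 : Integrable (fun ω => F ω * D ω) μ := by
      refine Integrable.of_bound (hFam.mul hDam) (Real.exp (|t| * M) * Real.cosh t) ?_
      filter_upwards [hFb, h01] with ω hω h2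
      rw [norm_mul]
      have hD1 : ‖D ω‖ ≤ 1 := by
        rw [Real.norm_eq_abs, abs_of_nonneg h2.1]
        exact h2.2
      calc _ ≤ (Real.exp (|t| * M) * Real.cosh t) * 1 := mul_le_mul hω hD1 (norm_nonneg _) (by positivity)
        _ = _ := mul_one _
    have i12 : Integrable (fun ω => F ω * I ω - F ω * D ω) μ := i1.sub i2
    have h5 := integral_mono_ae (hint (M + 1)) ((hint M).add i12) hpt
    refine h5.trans ?_
    have h6 : ∫ ω, (E + fun ω => F ω * I ω - F ω * D ω) ω ∂μ = ∫ ω, E ω ∂μ := by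
      simp only [Pi.add_apply]
      rw [integral_add (hint M) i12, integral_sub i1 i2, hpull, sub_self, add_zero]
    rw [h6]
    exact ih

/-- one-sided inequality -/
theorem Sv_tail1 (hA : ∀ n, MeasurableSet[ℱ n] (A n)) (a : ℕ) (w : ℕ → Ω → ℝ)
    (hw : ∀ k, StronglyMeasurable[ℱ (a + k)] (w k)) (hw1 : ∀ k ω, |w k ω| ≤ 1) (M : ℕ) {B : ℝ} (hB : 0 < B)
    (hV : ∀ ω, Vw w M ω ≤ B) {lam : ℝ} (hlam : 0 ≤ lam) :
    μ.real {ω | lam ≤ Sw μ ℱ A a w M ω} ≤ Real.exp (-(lam ^ 2 / (2 * B))) := by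
  set t : ℝ := lam / B with ht
  have ht0 : 0 ≤ t := div_nonneg hlam hB.le
  have h1 := Sv_mgf (μ := μ) hA a w hw hw1 t M
  have hm : AEStronglyMeasurable (fun ω => Real.exp (t * Sw μ ℱ A a w M ω - t ^ 2 / 2 * Vw w M ω)) μ := by
    have : StronglyMeasurable[ℱ (a + M)] (fun ω => Real.exp (t * Sw μ ℱ A a w M ω - t ^ 2 / 2 * Vw w M ω)) := by
      refine Real.continuous_exp.comp_stronglyMeasurable ?_
      exact @StronglyMeasurable.sub _ _ _ _ (ℱ (a + M)) _ _ _ ((Sw_meas (μ := μ) hA a w hw M).const_mul t)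
        ((Vw_meas a w hw M).const_mul _)
    exact (this.mono (ℱ.le _)).aestronglyMeasurable
  have hint : Integrable (fun ω => Real.exp (t * Sw μ ℱ A a w M ω - t ^ 2 / 2 * Vw w M ω)) μ := by
    refine Integrable.of_bound hm (Real.exp (|t| * M)) ?_
    filter_upwards [Sw_bound (μ := μ) (ℱ := ℱ) hA a w hw1 M] with ω hω
    rw [Real.norm_eq_abs, abs_of_pos (Real.exp_pos _)]
    apply Real.exp_le_exp.2
    have h1 : 0 ≤ t ^ 2 / 2 * Vw w M ω := mul_nonneg (by positivity) (Vw_nonneg w M ω)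
    have h2 : t * Sw μ ℱ A a w M ω ≤ |t| * M := by
      refine (le_abs_self _).trans ?_
      rw [abs_mul]
      exact mul_le_mul_of_nonneg_left hω (abs_nonneg t)
    linarith
  have h2 := mul_meas_ge_le_integral_of_nonneg (μ := μ)
    (Eventually.of_forall fun ω => (Real.exp_pos (t * Sw μ ℱ A a w M ω - t ^ 2 / 2 * Vw w M ω)).le)
    hint (Real.exp (t * lam - t ^ 2 / 2 * B))
  have h3 : μ.real {ω | lam ≤ Sw μ ℱ A a w M ω} ≤
      μ.real {ω | Real.exp (t * lam - t ^ 2 / 2 * B) ≤ Real.exp (t * Sw μ ℱ A a w M ω - t ^ 2 / 2 * Vw w M ω)} := by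
    apply measureReal_mono _ (measure_ne_top _ _)
    intro ω hω
    refine Real.exp_le_exp.2 ?_
    have h4 : t * lam ≤ t * Sw μ ℱ A a w M ω := mul_le_mul_of_nonneg_left hω ht0
    have h5 : t ^ 2 / 2 * Vw w M ω ≤ t ^ 2 / 2 * B := mul_le_mul_of_nonneg_left (hV ω) (by positivity)
    linarith
  have h4 : Real.exp (t * lam - t ^ 2 / 2 * B) * μ.real {ω | lam ≤ Sw μ ℱ A a w M ω} ≤ 1 :=
    (mul_le_mul_of_nonneg_left h3 (Real.exp_pos _).le).trans (h2.trans h1)
  have h5 : μ.real {ω | lam ≤ Sw μ ℱ A a w M ω} ≤ 1 / Real.exp (t * lam - t ^ 2 / 2 * B) := by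
    rw [le_div_iff₀ (Real.exp_pos _), mul_comm]
    exact h4
  rw [one_div, ← Real.exp_neg] at h5
  refine h5.trans (le_of_eq ?_)
  congr 1
  rw [ht]
  field_simp
  ring

/-- two-sided inequality -/
theorem Sv_tail (hA : ∀ n, MeasurableSet[ℱ n] (A n)) (a : ℕ) (w : ℕ → Ω → ℝ)
    (hw : ∀ k, StronglyMeasurable[ℱ (a + k)] (w k)) (hw1 : ∀ k ω, |w k ω| ≤ 1) (M : ℕ) {B : ℝ} (hB : 0 < B)
    (hV : ∀ ω, Vw w M ω ≤ B) {lam : ℝ} (hlam : 0 ≤ lam) :
    μ.real {ω | lam ≤ |Sw μ ℱ A a w M ω|} ≤ 2 * Real.exp (-(lam ^ 2 / (2 * B))) := by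
  have h1 := Sv_tail1 (μ := μ) hA a w hw hw1 M hB hV hlam
  have h2 := Sv_tail1 (μ := μ) hA a (fun k ω => - w k ω) (fun k => (hw k).neg) (fun k ω => by
    rw [abs_neg]; exact hw1 k ω) M hB (fun ω => by
      refine le_trans (le_of_eq ?_) (hV ω)
      unfold Vw
      exact Finset.sum_congr rfl fun k _ => abs_neg _) hlam
  have h3 : ∀ ω, Sw μ ℱ A a (fun k ω => - w k ω) M ω = - Sw μ ℱ A a w M ω := by
    intro ω
    unfold Sw
    rw [← Finset.sum_neg_distrib]
    refine Finset.sum_congr rfl fun k _ => ?_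
    ring
  simp_rw [h3] at h2
  have h4 : {ω | lam ≤ |Sw μ ℱ A a w M ω|} ⊆ {ω | lam ≤ Sw μ ℱ A a w M ω} ∪ {ω | lam ≤ - Sw μ ℱ A a w M ω} := by
    intro ω hω
    rcases le_abs.1 (show lam ≤ |Sw μ ℱ A a w M ω| from hω) with h | h
    · exact Or.inl h
    · exact Or.inr h
  calc μ.real {ω | lam ≤ |Sw μ ℱ A a w M ω|} ≤ μ.real ({ω | lam ≤ Sw μ ℱ A a w M ω} ∪ {ω | lam ≤ - Sw μ ℱ A a w M ω}) :=
        measureReal_mono h4 (measure_ne_top _ _)
    _ ≤ _ := measureReal_union_le _ _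
    _ ≤ _ := by linarith

end Pool.Agent.U310.Idx
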