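import Mathlib
import Pool.Agent.U310.Idx.Var

set_option autoImplicit false
set_option linter.unusedSectionVars false

/-! # Laws for sums whose weights are functions of the past of the random set -/

open MeasureTheory Filter Set
open scoped ENNReal Topology

namespace Pool.Agent.U310.Idx

open Pool.Agent.R528.RM

variable {Ω : Type} {m0 : MeasurableSpace Ω} {μ : Measure Ω} [IsProbabilityMeasure μ]
  {ℱ : Filtration ℕ m0} {A : ℕ → Set Ω}

open Classical in
/-- the chosen integers in `[1, T]` -/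
noncomputable def St (A : ℕ → Set Ω) (T : ℕ) (ω : Ω) : Finset ℕ := (Finset.Icc 1 T).filter (fun m => ω ∈ A m)

lemma mem_St {T m : ℕ} {ω : Ω} : m ∈ St A T ω ↔ (1 ≤ m ∧ m ≤ T) ∧ ω ∈ A m := by
  classical
  unfold St
  rw [Finset.mem_filter, Finset.mem_Icc]

lemma St_filter {T t : ℕ} (h : t ≤ T) (ω : Ω) : (St A T ω).filter (· ≤ t) = St A t ω := by
  ext m
  rw [Finset.mem_filter, mem_St, mem_St]
  constructor
  · rintro ⟨⟨⟨h1, h2⟩, h3⟩, h4⟩
    exact ⟨⟨h1, h4⟩, h3⟩
  · rintro ⟨⟨h1, h2⟩, h3⟩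
    exact ⟨⟨⟨h1, h2.trans h⟩, h3⟩, h2⟩

lemma St_meas (hA : ∀ n, MeasurableSet[ℱ n] (A n)) (T : ℕ) (g : Finset ℕ → ℝ) :
    StronglyMeasurable[ℱ T] (fun ω => g (St A T ω)) := by
  have h1 : @Measurable Ω (Finset ℕ) (ℱ T) ⊤ (St A T) := by
    refine @measurable_to_countable' _ _ ⊤ _ (ℱ T) _ fun U => ?_
    by_cases hU : U ⊆ Finset.Icc 1 T
    · have e : St A T ⁻¹' {U} = ⋂ m ∈ Finset.Icc 1 T, (if m ∈ U then A m else (A m)ᶜ) := by
        ext ω
        rw [mem_preimage, mem_singleton_iff, mem_iInter₂]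
        constructor
        · rintro h m hm
          by_cases hmU : m ∈ U
          · rw [if_pos hmU]
            rw [← h, mem_St] at hmU
            exact hmU.2
          · rw [if_neg hmU]
            intro h2
            exact hmU (by rw [← h, mem_St]; exact ⟨Finset.mem_Icc.1 hm, h2⟩)
        · intro h
          ext m
          rw [mem_St]
          constructor
          · rintro ⟨h2, h3⟩
            by_contra hmU
            have := h m (Finset.mem_Icc.2 h2)
            rw [if_neg hmU] at this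
            exact this h3
          · intro hmU
            have := h m (hU hmU)
            rw [if_pos hmU] at this
            exact ⟨Finset.mem_Icc.1 (hU hmU), this⟩
      rw [e]
      refine @Finset.measurableSet_biInter _ _ (ℱ T) _ _ fun m hm => ?_
      have h3 : MeasurableSet[ℱ T] (A m) := ℱ.mono (Finset.mem_Icc.1 hm).2 _ (hA m)
      split_ifs
      · exact h3
      · exact h3.compl
    · have e : St A T ⁻¹' {U} = ∅ := by
        ext ω
        rw [mem_preimage, mem_singleton_iff]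
        constructor
        · intro h
          exfalso
          refine hU fun m hm => ?_
          rw [← h, mem_St] at hm
          exact Finset.mem_Icc.2 hm.1
        · intro h; exact h.elim
      rw [e]
      exact @MeasurableSet.empty _ (ℱ T)
  have h2 : @Measurable (Finset ℕ) ℝ ⊤ _ g := measurable_from_top
  have h3 : Measurable[ℱ T] (fun ω => g (St A T ω)) := @Measurable.comp _ _ _ (ℱ T) ⊤ _ _ _ h2 h1
  exact h3.stronglyMeasurable

/-- the total weight before `M` -/
noncomputable def Vg (A : ℕ → Set Ω) (g : ℕ → Finset ℕ → ℝ) (M : ℕ) (ω : Ω) : ℝ :=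
  ∑ T ∈ Finset.range M, |g T (St A T ω)|

/-- the truncated weight -/
noncomputable def tr (g : ℕ → Finset ℕ → ℝ) (B : ℝ) (T : ℕ) (U : Finset ℕ) : ℝ :=
  if ∑ t ∈ Finset.range T, |g t (U.filter (· ≤ t))| ≤ B then g T U else 0

lemma tr_eq (g : ℕ → Finset ℕ → ℝ) (B : ℝ) (T : ℕ) (ω : Ω) :
    tr g B T (St A T ω) = if Vg A g T ω ≤ B then g T (St A T ω) else 0 := by
  unfold tr Vg
  have : ∑ t ∈ Finset.range T, |g t ((St A T ω).filter (· ≤ t))| = ∑ t ∈ Finset.range T, |g t (St A t ω)| :=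
    Finset.sum_congr rfl fun t ht => by rw [St_filter (Finset.mem_range.1 ht).le]
  rw [this]

lemma Vg_mono (g : ℕ → Finset ℕ → ℝ) (ω : Ω) : Monotone fun M => Vg A g M ω := by
  intro a b hab
  unfold Vg
  exact Finset.sum_le_sum_of_subset_of_nonneg (Finset.range_subset_range.2 hab) fun _ _ _ => abs_nonneg _

lemma V_tr (g : ℕ → Finset ℕ → ℝ) (hg : ∀ T U, |g T U| ≤ 1) {B : ℝ} (hB : 0 ≤ B) (M : ℕ) (ω : Ω) :
    Vw (fun T ω => tr g B T (St A T ω)) M ω ≤ B + 1 := by
  unfold Vw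
  have key : ∀ M, ∑ k ∈ Finset.range M, |tr g B k (St A k ω)| ≤ min (B + 1) (Vg A g M ω) := by
    intro M
    induction M with
    | zero => simp [Vg]; linarith
    | succ M ih =>
      rw [Finset.sum_range_succ]
      have h1 : Vg A g (M + 1) ω = Vg A g M ω + |g M (St A M ω)| := by
        unfold Vg; rw [Finset.sum_range_succ]
      rw [tr_eq]
      rw [le_min_iff] at ih ⊢
      split_ifs with h
      · rw [h1]
        have := hg M (St A M ω)
        constructor
        · linarith [ih.2]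
        · linarith [ih.2]
      · rw [abs_zero, add_zero, h1]
        have := abs_nonneg (g M (St A M ω))
        exact ⟨ih.1, by linarith [ih.2]⟩
  exact (key M).trans (min_le_left _ _)

/-- **martingale bound** for weights which are functions of the past -/
theorem PM (hA : ∀ n, MeasurableSet[ℱ n] (A n)) (g : ℕ → ℕ → Finset ℕ → ℝ) (hg : ∀ n T U, |g n T U| ≤ 1)
    (M : ℕ → ℕ) (B : ℕ → ℝ) (hB : ∀ n, 0 ≤ B n) :
    ∀ᵐ ω ∂μ, ∀ᶠ n : ℕ in atTop, Vg A (g n) (M n) ω ≤ B n →
      |∑ T ∈ Finset.range (M n), g n T (St A T ω) *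
        ((A (T + 1)).indicator (fun _ => (1 : ℝ)) ω - dens μ ℱ A T ω)| ≤ 2 * √((B n + 1) * Real.log n) := by
  set w : ℕ → ℕ → Ω → ℝ := fun n T ω => tr (g n) (B n) T (St A T ω) with hw
  set s : ℕ → Set Ω := fun n => {ω | 2 * √((B n + 1) * Real.log n) ≤ |Sw μ ℱ A 0 (w n) (M n) ω|} ∩
    {ω | 2 * √((B n + 1) * Real.log n) ≠ |Sw μ ℱ A 0 (w n) (M n) ω|} with hs
  have hwm : ∀ n k, StronglyMeasurable[ℱ (0 + k)] (w n k) := by
    intro n k
    rw [zero_add]
    exact St_meas hA k (tr (g n) (B n) k)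
  have hw1 : ∀ n k ω, |w n k ω| ≤ 1 := by
    intro n k ω
    simp only [hw]
    unfold tr
    split_ifs
    · exact hg _ _ _
    · simp
  have h1 : ∀ᶠ n : ℕ in atTop, μ.real (s n) ≤ 2 * (1 / (n : ℝ) ^ 2) := by
    filter_upwards [eventually_ge_atTop 2] with n hn
    have hn0 : (0 : ℝ) < n := by exact_mod_cast (by omega : 0 < n)
    have hlog : 0 ≤ Real.log n := Real.log_nonneg (by exact_mod_cast (by omega : 1 ≤ n))
    have hBn := hB n
    have h2 := Sv_tail (μ := μ) hA 0 (w n) (hwm n) (hw1 n) (M n) (B := B n + 1) (by linarith)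
      (fun ω => V_tr (g n) (hg n) (hB n) (M n) ω) (lam := 2 * √((B n + 1) * Real.log n)) (by positivity)
    refine (measureReal_mono inter_subset_left (measure_ne_top _ _)).trans (h2.trans (le_of_eq ?_))
    congr 1
    rw [mul_pow, Real.sq_sqrt (by positivity)]
    have h3 : -(2 ^ 2 * ((B n + 1) * Real.log n) / (2 * (B n + 1))) = -(2 * Real.log n) := by
      have : B n + 1 ≠ 0 := by linarith
      field_simp
      try ring
    rw [h3, Real.exp_neg, one_div]
    congr 1
    rw [show 2 * Real.log n = Real.log ((n : ℝ) ^ 2) by rw [Real.log_pow]; norm_num, Real.exp_log (by positivity)]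
  have h2 : Summable fun n : ℕ => 2 * (1 / (n : ℝ) ^ 2) := (Real.summable_one_div_nat_pow.2 (by norm_num)).mul_left 2
  have h3 := bc_real (μ := μ) h2 h1
  filter_upwards [h3] with ω hω
  filter_upwards [hω] with n hn hV
  have h4 : ∑ T ∈ Finset.range (M n), g n T (St A T ω) *
        ((A (T + 1)).indicator (fun _ => (1 : ℝ)) ω - dens μ ℱ A T ω) = Sw μ ℱ A 0 (w n) (M n) ω := by
    unfold Sw
    refine Finset.sum_congr rfl fun T hT => ?_
    rw [zero_add]
    simp only [hw]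
    rw [tr_eq, if_pos ((Vg_mono (g n) ω (Finset.mem_range.1 hT).le).trans hV)]
  rw [h4]
  by_contra h5
  push_neg at h5
  exact hn ⟨h5.le, h5.ne⟩

/-- **law for nonnegative weights**: if the conditional probabilities are asymptotic to `ρ` -/
theorem lawL (hA : ∀ n, MeasurableSet[ℱ n] (A n)) (ρ : ℕ → ℝ) (hρ : ∀ n, 0 ≤ ρ n)
    (hd : ∀ᵐ ω ∂μ, ∀ ε > 0, ∀ᶠ T : ℕ in atTop, |dens μ ℱ A T ω - ρ (T + 1)| ≤ ε * ρ (T + 1))
    (g : ℕ → ℕ → Finset ℕ → ℝ) (hg : ∀ n T U, 0 ≤ g n T U ∧ g n T U ≤ 1)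
    (M : ℕ → ℕ) (B : ℕ → ℝ) (hB : ∀ n, 0 ≤ B n) :
    ∀ᵐ ω ∂μ, ∀ ε > 0, ∃ C : ℝ, ∀ᶠ n : ℕ in atTop, Vg A (g n) (M n) ω ≤ B n →
      |∑ T ∈ Finset.range (M n), g n T (St A T ω) * (A (T + 1)).indicator (fun _ => (1 : ℝ)) ω -
        ∑ T ∈ Finset.range (M n), g n T (St A T ω) * ρ (T + 1)| ≤
      ε * ∑ T ∈ Finset.range (M n), g n T (St A T ω) * ρ (T + 1) + C + 2 * √((B n + 1) * Real.log n) := by
  filter_upwards [PM (μ := μ) hA g (fun n T U => by rw [abs_of_nonneg (hg n T U).1]; exact (hg n T U).2) M B hB,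
    hd] with ω h1 h2
  intro ε hε
  obtain ⟨T0, hT0⟩ := eventually_atTop.1 (h2 ε hε)
  refine ⟨∑ T ∈ Finset.range T0, |dens μ ℱ A T ω - ρ (T + 1)|, ?_⟩
  filter_upwards [h1] with n hn hV
  have h3 := hn hV
  have h4 : ∑ T ∈ Finset.range (M n), g n T (St A T ω) * (A (T + 1)).indicator (fun _ => (1 : ℝ)) ω -
        ∑ T ∈ Finset.range (M n), g n T (St A T ω) * ρ (T + 1) =
      ∑ T ∈ Finset.range (M n), g n T (St A T ω) *
        ((A (T + 1)).indicator (fun _ => (1 : ℝ)) ω - dens μ ℱ A T ω) +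
      ∑ T ∈ Finset.range (M n), g n T (St A T ω) * (dens μ ℱ A T ω - ρ (T + 1)) := by
    rw [← Finset.sum_sub_distrib, ← Finset.sum_add_distrib]
    refine Finset.sum_congr rfl fun T _ => ?_
    ring
  have h5 : |∑ T ∈ Finset.range (M n), g n T (St A T ω) * (dens μ ℱ A T ω - ρ (T + 1))| ≤
      ε * ∑ T ∈ Finset.range (M n), g n T (St A T ω) * ρ (T + 1) +
        ∑ T ∈ Finset.range T0, |dens μ ℱ A T ω - ρ (T + 1)| := by
    refine (Finset.abs_sum_le_sum_abs _ _).trans ?_
    have h6 : ∀ T ∈ Finset.range (M n), |g n T (St A T ω) * (dens μ ℱ A T ω - ρ (T + 1))| ≤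
        ε * (g n T (St A T ω) * ρ (T + 1)) + (if T < T0 then |dens μ ℱ A T ω - ρ (T + 1)| else 0) := by
      intro T _
      have hg' := hg n T (St A T ω)
      have hρ' := hρ (T + 1)
      rw [abs_mul, abs_of_nonneg hg'.1]
      split_ifs with hT
      · have h7 : 0 ≤ ε * (g n T (St A T ω) * ρ (T + 1)) := mul_nonneg hε.le (mul_nonneg hg'.1 hρ')
        have h8 : g n T (St A T ω) * |dens μ ℱ A T ω - ρ (T + 1)| ≤ 1 * |dens μ ℱ A T ω - ρ (T + 1)| :=
          mul_le_mul_of_nonneg_right hg'.2 (abs_nonneg _)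
        linarith
      · have h7 := hT0 T (not_lt.1 hT)
        have h8 := mul_le_mul_of_nonneg_left h7 hg'.1
        linarith
    refine (Finset.sum_le_sum h6).trans ?_
    rw [Finset.sum_add_distrib, ← Finset.mul_sum, ← Finset.sum_filter]
    have h9 : ∑ T ∈ (Finset.range (M n)).filter (· < T0), |dens μ ℱ A T ω - ρ (T + 1)| ≤
        ∑ T ∈ Finset.range T0, |dens μ ℱ A T ω - ρ (T + 1)| := by
      refine Finset.sum_le_sum_of_subset_of_nonneg ?_ fun _ _ _ => abs_nonneg _
      intro T hT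
      rw [Finset.mem_filter] at hT
      exact Finset.mem_range.2 hT.2
    linarith
  rw [h4]
  have h6 := abs_add_le (∑ T ∈ Finset.range (M n), g n T (St A T ω) *
        ((A (T + 1)).indicator (fun _ => (1 : ℝ)) ω - dens μ ℱ A T ω))
      (∑ T ∈ Finset.range (M n), g n T (St A T ω) * (dens μ ℱ A T ω - ρ (T + 1)))
  linarith

end Pool.Agent.U310.Idx
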