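import Mathlib
import Pool.Agent.U310.Idx.Law
import Pool.Agent.R528.RM.GoldQ

set_option autoImplicit false
set_option linter.unusedSectionVars false

/-! # Weights depending on the elements chosen so far: total time and equidistribution -/

open MeasureTheory Filter Set
open scoped ENNReal Topology

namespace Pool.Agent.U310.Idx

open Pool.Agent.R528.RM

variable {Ω : Type} {A : ℕ → Set Ω}

lemma St_const {T t : ℕ} {ω : Ω} (h : T ≤ t) (hn : ∀ m, T < m → m ≤ t → ω ∉ A m) : St A t ω = St A T ω := by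
  ext m
  rw [mem_St, mem_St]
  constructor
  · rintro ⟨⟨h1, h2⟩, h3⟩
    refine ⟨⟨h1, ?_⟩, h3⟩
    by_contra h4
    exact hn m (by omega) h2 h3
  · rintro ⟨⟨h1, h2⟩, h3⟩
    exact ⟨⟨h1, h2.trans h⟩, h3⟩

lemma St_succ_not {T : ℕ} {ω : Ω} (h : ω ∉ A (T + 1)) : St A (T + 1) ω = St A T ω :=
  St_const (by omega) fun m h1 h2 => by rwa [show m = T + 1 by omega]

open Classical in
/-- the indicator weight -/
noncomputable def W (A : ℕ → Set Ω) (g : Finset ℕ → Prop) (T : ℕ) (ω : Ω) : ℝ := if g (St A T ω) then 1 else 0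

lemma W_nonneg (g : Finset ℕ → Prop) (T : ℕ) (ω : Ω) : 0 ≤ W A g T ω := by
  unfold W; split_ifs <;> norm_num

lemma W_le (g : Finset ℕ → Prop) (T : ℕ) (ω : Ω) : W A g T ω ≤ 1 := by
  unfold W; split_ifs <;> norm_num

lemma W_succ_not (g : Finset ℕ → Prop) {T : ℕ} {ω : Ω} (h : ω ∉ A (T + 1)) : W A g (T + 1) ω = W A g T ω := by
  unfold W; rw [St_succ_not h]

/-- the number of the chosen integers up to `M` whose predecessors satisfy `g` -/
noncomputable def Th (A : ℕ → Set Ω) (g : Finset ℕ → Prop) (M : ℕ) (ω : Ω) : ℝ :=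
  ∑ T ∈ Finset.range M, W A g T ω * In A (T + 1) ω

lemma Th_nonneg (g : Finset ℕ → Prop) (M : ℕ) (ω : Ω) : 0 ≤ Th A g M ω :=
  Finset.sum_nonneg fun _ _ => mul_nonneg (W_nonneg _ _ _) (In_nonneg _ _)

lemma In_of {m : ℕ} {ω : Ω} (h : ω ∈ A m) : In A m ω = 1 := by unfold In; rw [indicator_of_mem h]

lemma In_of_not {m : ℕ} {ω : Ω} (h : ω ∉ A m) : In A m ω = 0 := by unfold In; rw [indicator_of_notMem h]

lemma starts_le (g : Finset ℕ → Prop) (M : ℕ) (ω : Ω) :
    ∑ T ∈ Finset.range M, W A g (T + 1) ω * In A (T + 1) ω ≤ Th A g M ω + W A g M ω := by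
  induction M with
  | zero => simp [Th, W_nonneg]
  | succ M ih =>
    have h1 : Th A g (M + 1) ω = Th A g M ω + W A g M ω * In A (M + 1) ω := by
      unfold Th; rw [Finset.sum_range_succ]
    rw [Finset.sum_range_succ, h1]
    by_cases h : ω ∈ A (M + 1)
    · rw [In_of h]; linarith
    · rw [In_of_not h, W_succ_not g h]; linarith

lemma abel (u D : ℕ → ℝ) (c : ℝ) (hD : ∀ T, |D T| ≤ c) (M : ℕ) :
    |∑ T ∈ Finset.range M, u T * (D (T + 1) - D T)| ≤
      c * (|u M| + |u 0| + ∑ T ∈ Finset.range M, |u (T + 1) - u T|) := by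
  have h1 : ∑ T ∈ Finset.range M, u T * (D (T + 1) - D T) =
      u M * D M - u 0 * D 0 - ∑ T ∈ Finset.range M, (u (T + 1) - u T) * D (T + 1) := by
    induction M with
    | zero => simp
    | succ M ih =>
      rw [Finset.sum_range_succ, Finset.sum_range_succ, ih]
      ring
  have hc : 0 ≤ c := (abs_nonneg _).trans (hD 0)
  rw [h1]
  have h2 : |u M * D M| ≤ c * |u M| := by
    rw [abs_mul, mul_comm]; exact mul_le_mul_of_nonneg_right (hD M) (abs_nonneg _)
  have h3 : |u 0 * D 0| ≤ c * |u 0| := by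
    rw [abs_mul, mul_comm]; exact mul_le_mul_of_nonneg_right (hD 0) (abs_nonneg _)
  have h4 : |∑ T ∈ Finset.range M, (u (T + 1) - u T) * D (T + 1)| ≤ c * ∑ T ∈ Finset.range M, |u (T + 1) - u T| := by
    refine (Finset.abs_sum_le_sum_abs _ _).trans ?_
    rw [Finset.mul_sum]
    refine Finset.sum_le_sum fun T _ => ?_
    rw [abs_mul, mul_comm]; exact mul_le_mul_of_nonneg_right (hD (T + 1)) (abs_nonneg _)
  rw [abs_le] at h2 h3 h4 ⊢
  constructor
  · linarith [h2.1, h3.2, h4.2]
  · linarith [h2.2, h3.1, h4.1]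

/-- variation of `T ↦ W T * f (T + 1)` -/
lemma variation (g : Finset ℕ → Prop) (f : ℕ → ℝ) (hf : Antitone f) (hf0 : ∀ n, 0 ≤ f n) (hf1 : ∀ n, f n ≤ 1)
    {ε : ℝ} (hε : 0 ≤ ε) {T1 : ℕ} (hT1 : ∀ T, T1 ≤ T → f T ≤ ε) (M : ℕ) (ω : Ω) :
    ∑ T ∈ Finset.range M, |W A g (T + 1) ω * f (T + 1 + 1) - W A g T ω * f (T + 1)| ≤
      1 + 2 * T1 + ε * (2 * Th A g M ω + 1) := by
  have h1 : ∀ T, |W A g (T + 1) ω * f (T + 1 + 1) - W A g T ω * f (T + 1)| ≤
      (f (T + 1) - f (T + 2)) + (if T < T1 then 2 else 0) +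
        ε * (W A g (T + 1) ω * In A (T + 1) ω + W A g T ω * In A (T + 1) ω) := by
    intro T
    have hW0 := W_nonneg (A := A) g T ω
    have hW1 := W_le (A := A) g T ω
    have hW0' := W_nonneg (A := A) g (T + 1) ω
    have hW1' := W_le (A := A) g (T + 1) ω
    have hfm : f (T + 2) ≤ f (T + 1) := hf (by omega)
    have hf0' := hf0 (T + 1)
    have hf0'' := hf0 (T + 2)
    have hf1' := hf1 (T + 1)
    by_cases h : ω ∈ A (T + 1)
    · rw [In_of h]
      have h2 : |W A g (T + 1) ω * f (T + 1 + 1) - W A g T ω * f (T + 1)| ≤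
          (f (T + 1) - f (T + 2)) + f (T + 1) * (W A g (T + 1) ω + W A g T ω) := by
        rw [show T + 1 + 1 = T + 2 by rfl, abs_le]
        have h3 : 0 ≤ W A g (T + 1) ω * (f (T + 1) - f (T + 2)) := mul_nonneg hW0' (by linarith)
        have h4 : W A g (T + 1) ω * (f (T + 1) - f (T + 2)) ≤ 1 * (f (T + 1) - f (T + 2)) :=
          mul_le_mul_of_nonneg_right hW1' (by linarith)
        have h5 : 0 ≤ W A g (T + 1) ω * f (T + 1) := mul_nonneg hW0' hf0'
        have h6 : 0 ≤ W A g T ω * f (T + 1) := mul_nonneg hW0 hf0'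
        constructor <;> nlinarith
      refine h2.trans ?_
      split_ifs with hT
      · have h3 : f (T + 1) * (W A g (T + 1) ω + W A g T ω) ≤ 1 * 2 :=
          mul_le_mul hf1' (by linarith) (by linarith) zero_le_one
        have h4 : 0 ≤ ε * (W A g (T + 1) ω * 1 + W A g T ω * 1) := by positivity
        linarith
      · have h3 := hT1 (T + 1) (by omega)
        have h4 : f (T + 1) * (W A g (T + 1) ω + W A g T ω) ≤ ε * (W A g (T + 1) ω + W A g T ω) :=
          mul_le_mul_of_nonneg_right h3 (by linarith)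
        linarith
    · rw [In_of_not h, W_succ_not g h]
      have h2 : |W A g T ω * f (T + 1 + 1) - W A g T ω * f (T + 1)| ≤ f (T + 1) - f (T + 2) := by
        rw [← mul_sub, abs_mul, abs_of_nonneg hW0, show T + 1 + 1 = T + 2 by rfl, abs_sub_comm, abs_of_nonneg (by linarith)]
        calc _ ≤ 1 * (f (T + 1) - f (T + 2)) := mul_le_mul_of_nonneg_right hW1 (by linarith)
          _ = _ := one_mul _
      have h3 : (0 : ℝ) ≤ if T < T1 then 2 else 0 := by split_ifs <;> norm_num
      linarith
  refine (Finset.sum_le_sum fun T _ => h1 T).trans ?_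
  rw [Finset.sum_add_distrib, Finset.sum_add_distrib, ← Finset.mul_sum, Finset.sum_add_distrib]
  have h2 : ∑ T ∈ Finset.range M, (f (T + 1) - f (T + 2)) ≤ 1 := by
    have h3 : ∑ T ∈ Finset.range M, (f (T + 1) - f (T + 2)) = f 1 - f (M + 1) := by
      induction M with
      | zero => simp
      | succ M ih => rw [Finset.sum_range_succ, ih]; ring
    rw [h3]
    linarith [hf0 (M + 1), hf1 1]
  have h3 : ∑ T ∈ Finset.range M, (if T < T1 then (2 : ℝ) else 0) ≤ 2 * T1 := by
    rw [← Finset.sum_filter, Finset.sum_const, nsmul_eq_mul, mul_comm]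
    have h4 : ((Finset.range M).filter (· < T1)).card ≤ T1 := by
      calc _ ≤ (Finset.range T1).card := Finset.card_le_card fun T hT => by
            rw [Finset.mem_filter] at hT; exact Finset.mem_range.2 hT.2
        _ = T1 := Finset.card_range _
    have : (((Finset.range M).filter (· < T1)).card : ℝ) ≤ T1 := by exact_mod_cast h4
    linarith
  have h4 := starts_le (A := A) g M ω
  have h5 := W_le (A := A) g M ω
  have h6 : ε * (∑ T ∈ Finset.range M, W A g (T + 1) ω * In A (T + 1) ω +
      ∑ T ∈ Finset.range M, W A g T ω * In A (T + 1) ω) ≤ ε * (2 * Th A g M ω + 1) := by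
    apply mul_le_mul_of_nonneg_left _ hε
    unfold Th at h4 ⊢
    linarith
  linarith

lemma count_class {P a : ℕ} (hP : 0 < P) (ha : a < P) : Nat.count (fun t => (t + 1) % P = a) P = 1 := by
  rw [Nat.count_eq_card_filter_range, Finset.card_eq_one]
  rcases Nat.eq_zero_or_pos a with h | h
  · refine ⟨P - 1, ?_⟩
    ext t
    rw [Finset.mem_filter, Finset.mem_range, Finset.mem_singleton]
    constructor
    · rintro ⟨h1, h2⟩
      rcases Nat.lt_or_ge (t + 1) P with h3 | h3
      · rw [Nat.mod_eq_of_lt h3] at h2; omega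
      · omega
    · intro h1
      refine ⟨by omega, ?_⟩
      rw [show t + 1 = P by omega, Nat.mod_self, h]
  · refine ⟨a - 1, ?_⟩
    ext t
    rw [Finset.mem_filter, Finset.mem_range, Finset.mem_singleton]
    constructor
    · rintro ⟨h1, h2⟩
      rcases Nat.lt_or_ge (t + 1) P with h3 | h3
      · rw [Nat.mod_eq_of_lt h3] at h2; omega
      · have : t + 1 = P := by omega
        rw [this, Nat.mod_self] at h2; omega
    · intro h1
      refine ⟨by omega, ?_⟩
      rw [show t + 1 = a by omega, Nat.mod_eq_of_lt ha]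

open Classical in
/-- **equidistribution of the time** over the residue classes -/
lemma equi_time (g : Finset ℕ → Prop) (f : ℕ → ℝ) (hf : Antitone f) (hf0 : ∀ n, 0 ≤ f n) (hf1 : ∀ n, f n ≤ 1)
    {P a : ℕ} (hP : 0 < P) (ha : a < P)
    {ε : ℝ} (hε : 0 ≤ ε) {T1 : ℕ} (hT1 : ∀ T, T1 ≤ T → f T ≤ ε) (M : ℕ) (ω : Ω) :
    |∑ T ∈ Finset.range M, W A g T ω * f (T + 1) * (if (T + 1) % P = a then 1 else 0) -
      (1 / P) * ∑ T ∈ Finset.range M, W A g T ω * f (T + 1)| ≤
      P * (3 + 2 * T1 + ε * (2 * Th A g M ω + 1)) := by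
  set D : ℕ → ℝ := fun T => (Nat.count (fun t => (t + 1) % P = a) T : ℝ) - T * ((Nat.count (fun t => (t + 1) % P = a) P : ℝ) / P) with hD
  have hper : Function.Periodic (fun t => (t + 1) % P = a) P := by
    intro t
    simp only [eq_iff_iff]
    rw [show t + P + 1 = (t + 1) + P by ring, Nat.add_mod_right]
  have hDb : ∀ T, |D T| ≤ P := fun T => count_periodic _ P hP hper T
  have h1 : ∀ T, D (T + 1) - D T = (if (T + 1) % P = a then 1 else 0) - 1 / P := by
    intro T
    simp only [hD]
    rw [count_class hP ha, Nat.count_succ]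
    push_cast
    ring
  have h2 := abel (fun T => W A g T ω * f (T + 1)) D P hDb M
  have h3 := variation (A := A) g f hf hf0 hf1 hε hT1 M ω
  have h4 : ∑ T ∈ Finset.range M, W A g T ω * f (T + 1) * (if (T + 1) % P = a then 1 else 0) -
      (1 / P) * ∑ T ∈ Finset.range M, W A g T ω * f (T + 1) =
      ∑ T ∈ Finset.range M, W A g T ω * f (T + 1) * (D (T + 1) - D T) := by
    rw [Finset.mul_sum, ← Finset.sum_sub_distrib]
    refine Finset.sum_congr rfl fun T _ => ?_
    rw [h1]
    ring
  rw [h4]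
  refine h2.trans ?_
  have h5 : ∀ T, |W A g T ω * f (T + 1)| ≤ 1 := by
    intro T
    rw [abs_of_nonneg (mul_nonneg (W_nonneg _ _ _) (hf0 _))]
    exact mul_le_one₀ (W_le _ _ _) (hf0 _) (hf1 _)
  have h6 := h5 M
  have h7 := h5 0
  have hP' : (0 : ℝ) ≤ P := Nat.cast_nonneg _
  apply mul_le_mul_of_nonneg_left _ hP'
  linarith

open Classical in
/-- **total time**: if the gaps after `T0` are at most `H` -/
lemma time_le (g : Finset ℕ → Prop) {T0 H M : ℕ} (ω : Ω)
    (hgap : ∀ T, T0 ≤ T → T + H ≤ M → ∃ t, T ≤ t ∧ t < T + H ∧ ω ∈ A (t + 1)) :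
    ∑ T ∈ Finset.range M, W A g T ω ≤ T0 + H + H * Th A g M ω := by
  set s := (Finset.range M).filter (fun T => T0 ≤ T ∧ T + H ≤ M ∧ g (St A T ω)) with hs
  set t := (Finset.range M).filter (fun T => ω ∈ A (T + 1) ∧ g (St A T ω)) with ht
  have hTh : Th A g M ω = (t.card : ℝ) := by
    unfold Th
    rw [ht, Finset.card_eq_sum_ones, Finset.sum_filter]
    push_cast
    refine Finset.sum_congr rfl fun T _ => ?_
    by_cases h1 : ω ∈ A (T + 1)
    · rw [In_of h1]; unfold W; simp [h1]
    · rw [In_of_not h1]; simp [h1]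
  have h1 : ∀ T ∈ s, ∃ t, T ≤ t ∧ t < T + H ∧ ω ∈ A (t + 1) := by
    intro T hT
    rw [hs, Finset.mem_filter] at hT
    exact hgap T hT.2.1 hT.2.2.1
  have h2 : ∀ T, ∃ u, T ∈ s → (T ≤ u ∧ u < T + H ∧ ω ∈ A (u + 1) ∧ g (St A u ω)) := by
    intro T
    by_cases hT : T ∈ s
    · have h3 := h1 T hT
      have h4 := Nat.find_spec h3
      refine ⟨Nat.find h3, fun _ => ⟨h4.1, h4.2.1, h4.2.2, ?_⟩⟩
      have h5 : St A (Nat.find h3) ω = St A T ω := by
        refine St_const h4.1 fun m hm1 hm2 hm3 => ?_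
        have h6 := Nat.find_min h3 (m := m - 1) (by omega)
        apply h6
        refine ⟨by omega, by omega, ?_⟩
        rwa [show m - 1 + 1 = m by omega]
      rw [h5]
      rw [hs, Finset.mem_filter] at hT
      exact hT.2.2.2
    · exact ⟨0, fun h => absurd h hT⟩
  choose F hF using h2
  have h3 : s.card ≤ H * t.card := by
    refine Finset.card_le_mul_card_image_of_maps_to (f := F) (t := t) ?_ H ?_
    · intro T hT
      have h4 := hF T hT
      have hT' := hT
      rw [hs, Finset.mem_filter] at hT'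
      rw [ht, Finset.mem_filter, Finset.mem_range]
      exact ⟨by omega, h4.2.2.1, h4.2.2.2⟩
    · intro u _
      calc _ ≤ (Finset.Ico (u + 1 - H) (u + 1)).card := ?_
        _ ≤ H := by rw [Nat.card_Ico]; omega
      refine Finset.card_le_card fun T hT => ?_
      rw [Finset.mem_filter] at hT
      have h4 := hF T hT.1
      rw [Finset.mem_Ico]
      omega
  have h4 : ∑ T ∈ Finset.range M, W A g T ω ≤ T0 + H + s.card := by
    have h5 : ∀ T ∈ Finset.range M, W A g T ω ≤ (if T < T0 then 1 else 0) + (if M < T + H then 1 else 0) +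
        (if T ∈ s then 1 else 0) := by
      intro T hT
      have h6 := W_le (A := A) g T ω
      by_cases c1 : T < T0
      · rw [if_pos c1]
        have : (0 : ℝ) ≤ (if M < T + H then 1 else 0) + (if T ∈ s then 1 else 0) := by positivity
        linarith
      · by_cases c2 : M < T + H
        · rw [if_pos c2, if_neg c1]
          have : (0 : ℝ) ≤ (if T ∈ s then 1 else 0) := by positivity
          linarith
        · rw [if_neg c1, if_neg c2]
          unfold W
          split_ifs with c3 c4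
          · norm_num
          · exfalso
            apply c4
            rw [hs, Finset.mem_filter]
            exact ⟨hT, by omega, by omega, c3⟩
          · norm_num
          · norm_num
    refine (Finset.sum_le_sum h5).trans ?_
    rw [Finset.sum_add_distrib, Finset.sum_add_distrib, ← Finset.sum_filter, ← Finset.sum_filter, ← Finset.sum_filter,
      Finset.sum_const, Finset.sum_const, Finset.sum_const, nsmul_eq_mul, nsmul_eq_mul, nsmul_eq_mul, mul_one, mul_one, mul_one]
    have c1 : ((Finset.range M).filter (· < T0)).card ≤ T0 := by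
      calc _ ≤ (Finset.range T0).card := Finset.card_le_card fun T hT => by
            rw [Finset.mem_filter] at hT; exact Finset.mem_range.2 hT.2
        _ = T0 := Finset.card_range _
    have c2 : ((Finset.range M).filter (fun T => M < T + H)).card ≤ H := by
      calc _ ≤ (Finset.Ico (M - H) M).card := Finset.card_le_card fun T hT => by
            rw [Finset.mem_filter, Finset.mem_range] at hT; rw [Finset.mem_Ico]; omega
        _ ≤ H := by rw [Nat.card_Ico]; omega
    have c3 : ((Finset.range M).filter (· ∈ s)).card ≤ s.card :=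
      Finset.card_le_card fun T hT => by rw [Finset.mem_filter] at hT; exact hT.2
    have d1 : (((Finset.range M).filter (· < T0)).card : ℝ) ≤ T0 := by exact_mod_cast c1
    have d2 : (((Finset.range M).filter (fun T => M < T + H)).card : ℝ) ≤ H := by exact_mod_cast c2
    have d3 : (((Finset.range M).filter (· ∈ s)).card : ℝ) ≤ s.card := by exact_mod_cast c3
    linarith
  have h5 : (s.card : ℝ) ≤ H * Th A g M ω := by
    rw [hTh]
    exact_mod_cast h3
  linarith

end Pool.Agent.U310.Idx
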