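import Mathlib
import Pool.Agent.U310.Idx.Equi

set_option autoImplicit false
set_option linter.unusedSectionVars false

/-! # The law of the residues of the elements of a sieved random set along index sets -/

open MeasureTheory Filter Set
open scoped ENNReal Topology

namespace Pool.Agent.U310.Idx

open Pool.Agent.R528.RM

/-- `1 / log n`, truncated -/
noncomputable def lf (n : ℕ) : ℝ := 1 / Real.log (max n 3 : ℕ)

lemma log3 : 1 < Real.log 3 := by
  rw [Real.lt_log_iff_exp_lt (by norm_num)]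
  exact Real.exp_one_lt_d9.trans (by norm_num)

lemma lmax (n : ℕ) : 1 < Real.log (max n 3 : ℕ) := by
  refine log3.trans_le (Real.log_le_log (by norm_num) ?_)
  exact_mod_cast le_max_right n 3

lemma lf_pos (n : ℕ) : 0 < lf n := by
  unfold lf; have := lmax n; positivity

lemma lf_le (n : ℕ) : lf n ≤ 1 := by
  unfold lf
  rw [div_le_one (by linarith [lmax n])]
  exact (lmax n).le

lemma lf_anti : Antitone lf := by
  intro a b hab
  unfold lf
  apply one_div_le_one_div_of_le (by linarith [lmax a])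
  apply Real.log_le_log (by positivity)
  exact_mod_cast max_le_max hab le_rfl

lemma lf_eq {n : ℕ} (h : 3 ≤ n) : lf n = 1 / Real.log n := by
  unfold lf; rw [max_eq_left h]

lemma lf_small {ε : ℝ} (hε : 0 < ε) : ∃ T1 : ℕ, ∀ T, T1 ≤ T → lf T ≤ ε := by
  obtain ⟨k, hk⟩ := eventually_atTop.1 ((Real.tendsto_log_atTop.comp tendsto_natCast_atTop_atTop).eventually_ge_atTop (1 / ε))
  refine ⟨max k 3, fun T hT => ?_⟩
  rw [lf_eq (le_trans (le_max_right _ _) hT)]
  have h1 : 1 / ε ≤ Real.log T := hk T (le_trans (le_max_left _ _) hT)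
  rw [div_le_iff₀ (lt_of_lt_of_le (by positivity) h1)]
  rw [div_le_iff₀ hε] at h1
  linarith

/-- `P / φ(P)` -/
noncomputable def kap (P : ℕ) : ℝ := (P : ℝ) / Nat.totient P

/-- the profile of a set sieved by the primes dividing `P` -/
noncomputable def rho (P : ℕ) (n : ℕ) : ℝ := if Nat.Coprime n P then kap P * lf n else 0

lemma kap_pos {P : ℕ} (hP : 0 < P) : 0 < kap P := by
  unfold kap
  have := Nat.totient_pos.2 hP
  positivity

lemma kap_ge {P : ℕ} (hP : 0 < P) : 1 ≤ kap P := by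
  unfold kap
  have := Nat.totient_pos.2 hP
  rw [one_le_div (by positivity)]
  exact_mod_cast Nat.totient_le P

lemma rho_nonneg {P : ℕ} (hP : 0 < P) (n : ℕ) : 0 ≤ rho P n := by
  unfold rho
  split_ifs
  · exact mul_nonneg (kap_pos hP).le (lf_pos n).le
  · exact le_rfl

variable {Ω : Type} {m0 : MeasurableSpace Ω} {μ : Measure Ω} [IsProbabilityMeasure μ]
  {ℱ : Filtration ℕ m0} {A : ℕ → Set Ω}

/-- length of the gaps -/
noncomputable def Hn (n : ℕ) : ℕ := ⌊Real.log n ^ 6⌋₊

open Classical in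
lemma gap (hA : ∀ n, MeasurableSet[ℱ n] (A n)) {P : ℕ} (hP : 0 < P)
    (hd : ∀ᵐ ω ∂μ, ∀ ε > 0, ∀ᶠ T : ℕ in atTop, |dens μ ℱ A T ω - rho P (T + 1)| ≤ ε * rho P (T + 1)) :
    ∀ᵐ ω ∂μ, ∀ᶠ x : ℕ in atTop, ∃ t, x ≤ t ∧ t < x + Hn x ∧ ω ∈ A (t + 1) := by
  have h0 := lawL (μ := μ) hA (rho P) (rho_nonneg hP) hd
    (fun n T _ => if n ≤ T then 1 else 0) (fun n T U => by split_ifs <;> norm_num)
    (fun n => n + Hn n) (fun n => Hn n) (fun n => Nat.cast_nonneg _)
  filter_upwards [h0] with ω h1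
  obtain ⟨C, hC⟩ := h1 (1 / 2) (by norm_num)
  have hlog : Tendsto (fun n : ℕ => Real.log n) atTop atTop := Real.tendsto_log_atTop.comp tendsto_natCast_atTop_atTop
  have hP' : (0 : ℝ) < P := by exact_mod_cast hP
  have e1 : ∀ᶠ L : ℝ in atTop, 2 ≤ L ∧ 1 + 2 * (P : ℝ) ^ 2 ≤ L ^ 6 / 2 ∧ |C| + 4 * L ^ 4 < L ^ 5 / (16 * P) := by
    have a1 : ∀ᶠ L : ℝ in atTop, max 2 (max (2 + 4 * (P : ℝ) ^ 2) (16 * P * (|C| + 4) + 1)) ≤ L := eventually_ge_atTop _
    filter_upwards [a1] with L hL
    have b1 : 2 ≤ L := (le_max_left _ _).trans hL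
    have b2 : 2 + 4 * (P : ℝ) ^ 2 ≤ L := ((le_max_left _ _).trans (le_max_right _ _)).trans hL
    have b3 : 16 * P * (|C| + 4) + 1 ≤ L := ((le_max_right _ _).trans (le_max_right _ _)).trans hL
    refine ⟨b1, ?_, ?_⟩
    · have : L ≤ L ^ 6 := le_self_pow₀ (by linarith) (by norm_num)
      linarith
    · rw [lt_div_iff₀ (by positivity)]
      have c1 : 1 ≤ L ^ 4 := one_le_pow₀ (by linarith)
      have c2 : |C| + 4 * L ^ 4 ≤ (|C| + 4) * L ^ 4 := by nlinarith [abs_nonneg C]
      calc (|C| + 4 * L ^ 4) * (16 * P) ≤ ((|C| + 4) * L ^ 4) * (16 * P) := by gcongr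
        _ = (16 * P * (|C| + 4)) * L ^ 4 := by ring
        _ < L * L ^ 4 := by
            apply mul_lt_mul_of_pos_right _ (by positivity)
            linarith
        _ = L ^ 5 := by ring
  have e2 : ∀ᶠ n : ℕ in atTop, Real.log ((n : ℝ) + Real.log n ^ 6) ≤ 2 * Real.log n := by
    have a1 : ∀ᶠ x : ℝ in atTop, Real.log x ^ 6 ≤ x := by
      have := (Real.isLittleO_pow_log_id_atTop (n := 6)).bound (show (0 : ℝ) < 1 by norm_num)
      filter_upwards [this, eventually_ge_atTop 1] with x hx hx1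
      rw [one_mul, Real.norm_eq_abs, Real.norm_eq_abs, id, abs_of_nonneg (by linarith : (0 : ℝ) ≤ x)] at hx
      exact (le_abs_self _).trans hx
    filter_upwards [tendsto_natCast_atTop_atTop.eventually a1, eventually_ge_atTop 2] with n h1 h2
    have hn : (2 : ℝ) ≤ n := by exact_mod_cast h2
    have h3 : (n : ℝ) + Real.log n ^ 6 ≤ (n : ℝ) ^ 2 := by nlinarith
    have h4 : 0 ≤ Real.log n := Real.log_nonneg (by linarith)
    calc _ ≤ Real.log ((n : ℝ) ^ 2) := Real.log_le_log (by positivity) h3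
      _ = _ := by rw [Real.log_pow]; norm_num
  filter_upwards [hC, hlog.eventually e1, e2, eventually_ge_atTop 3] with n hn h2 h3 hn3
  have hn3' : (3 : ℝ) ≤ n := by exact_mod_cast hn3
  set L := Real.log n with hL
  have hL0 : 0 < L := by linarith [h2.1]
  have hV : Vg A (fun T (_ : Finset ℕ) => if n ≤ T then (1 : ℝ) else 0) (n + Hn n) ω ≤ Hn n := by
    unfold Vg
    have : ∀ T, |if n ≤ T then (1 : ℝ) else 0| = if n ≤ T then 1 else 0 := fun T => by split_ifs <;> simp
    simp_rw [this]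
    rw [← Finset.sum_filter, Finset.sum_const, nsmul_eq_mul, mul_one]
    have : ((Finset.range (n + Hn n)).filter (fun T => n ≤ T)).card ≤ Hn n := by
      calc _ ≤ (Finset.Ico n (n + Hn n)).card := Finset.card_le_card fun T hT => by
            rw [Finset.mem_filter, Finset.mem_range] at hT; rw [Finset.mem_Ico]; omega
        _ = Hn n := by rw [Nat.card_Ico]; omega
    exact_mod_cast this
  have h4 := hn hV
  by_contra hcon
  push_neg at hcon
  have h5 : ∑ T ∈ Finset.range (n + Hn n), (if n ≤ T then (1 : ℝ) else 0) * (A (T + 1)).indicator (fun _ => (1 : ℝ)) ω = 0 := by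
    refine Finset.sum_eq_zero fun T hT => ?_
    rw [Finset.mem_range] at hT
    split_ifs with h6
    · rw [indicator_of_notMem (hcon T h6 hT), mul_zero]
    · rw [zero_mul]
  rw [h5] at h4
  set R := ∑ T ∈ Finset.range (n + Hn n), (if n ≤ T then (1 : ℝ) else 0) * rho P (T + 1) with hR
  have hR0 : 0 ≤ R := Finset.sum_nonneg fun T _ => mul_nonneg (by split_ifs <;> norm_num) (rho_nonneg hP _)
  rw [zero_sub, abs_neg, abs_of_nonneg hR0] at h4
  -- lower bound for `R`
  have h6 : (Hn n : ℝ) ≤ L ^ 6 := Nat.floor_le (by positivity)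
  have h7 : L ^ 6 < Hn n + 1 := Nat.lt_floor_add_one _
  have h8 : lf (n + Hn n) * ((Hn n : ℝ) / P - 2 * P) ≤ R := by
    have b1 : ∀ T ∈ Finset.range (n + Hn n), lf (n + Hn n) *
        ((if n ≤ T then (1 : ℝ) else 0) * (if (T + 1) % P = 1 % P then 1 else 0)) ≤
        (if n ≤ T then (1 : ℝ) else 0) * rho P (T + 1) := by
      intro T hT
      rw [Finset.mem_range] at hT
      split_ifs with c1 c2
      · have c3 : Nat.Coprime (T + 1) P := by
          have : (T + 1).gcd P = (1 : ℕ).gcd P := by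
            rw [Nat.gcd_comm, Nat.gcd_rec, c2, ← Nat.gcd_rec, Nat.gcd_comm]
          rw [Nat.coprime_iff_gcd_eq_one, this, Nat.gcd_one_left]
        rw [rho, if_pos c3, mul_one, one_mul, mul_one]
        have c4 : lf (n + Hn n) ≤ lf (T + 1) := lf_anti (by omega)
        have c5 := kap_ge hP
        have c6 := lf_pos (T + 1)
        nlinarith
      · rw [mul_zero, mul_zero, one_mul]; exact rho_nonneg hP _
      · simp
      · simp
    have b2 := Finset.sum_le_sum b1
    rw [← Finset.mul_sum] at b2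
    refine le_trans (mul_le_mul_of_nonneg_left ?_ (lf_pos _).le) b2
    have hper : Function.Periodic (fun t => (t + 1) % P = 1 % P) P := by
      intro t
      simp only [eq_iff_iff]
      rw [show t + P + 1 = (t + 1) + P by ring, Nat.add_mod_right]
    have c1 := count_periodic _ P hP hper (n + Hn n)
    have c2 := count_periodic _ P hP hper n
    rw [count_class hP (Nat.mod_lt _ hP)] at c1 c2
    have c3 : ∑ T ∈ Finset.range (n + Hn n), ((if n ≤ T then (1 : ℝ) else 0) * (if (T + 1) % P = 1 % P then 1 else 0)) =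
        (Nat.count (fun t => (t + 1) % P = 1 % P) (n + Hn n) : ℝ) - (Nat.count (fun t => (t + 1) % P = 1 % P) n : ℝ) := by
      rw [Nat.count_eq_card_filter_range, Nat.count_eq_card_filter_range, Finset.card_eq_sum_ones, Finset.card_eq_sum_ones,
        Finset.sum_filter, Finset.sum_filter]
      push_cast
      rw [Finset.sum_range_add, Finset.sum_range_add, add_sub_cancel_left]
      have d1 : ∑ T ∈ Finset.range n, ((if n ≤ T then (1 : ℝ) else 0) * (if (T + 1) % P = 1 % P then 1 else 0)) = 0 :=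
        Finset.sum_eq_zero fun T hT => by rw [if_neg (by have := Finset.mem_range.1 hT; omega), zero_mul]
      rw [d1, zero_add]
      refine Finset.sum_congr rfl fun T _ => ?_
      rw [if_pos (by omega), one_mul]
    rw [c3]
    push_cast at c1 c2 ⊢
    rw [abs_le] at c1 c2
    have c4 : ((n : ℝ) + Hn n) * (1 / P) = n * (1 / P) + Hn n / P := by ring
    linarith [c1.1, c2.2]
  have h9 : 1 / (2 * L) ≤ lf (n + Hn n) := by
    rw [lf_eq (by omega)]
    apply one_div_le_one_div_of_le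
    · apply Real.log_pos
      have : (3 : ℝ) ≤ ((n + Hn n : ℕ) : ℝ) := by push_cast; linarith [(Nat.cast_nonneg (Hn n) : (0 : ℝ) ≤ _)]
      linarith
    · refine le_trans (Real.log_le_log ?_ ?_) h3
      · push_cast; linarith [(Nat.cast_nonneg (Hn n) : (0 : ℝ) ≤ _)]
      · push_cast; linarith
  have h10 : L ^ 6 / (2 * P) ≤ (Hn n : ℝ) / P - 2 * P := by
    have b1 : L ^ 6 / 2 ≤ Hn n - 2 * P ^ 2 := by linarith [h2.2.1]
    have b2 : (Hn n : ℝ) / P - 2 * P = (Hn n - 2 * P ^ 2) / P := by field_simp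
    rw [b2, ← div_div]
    gcongr
  have h11 : L ^ 5 / (4 * P) ≤ R := by
    refine le_trans ?_ h8
    calc L ^ 5 / (4 * P) = 1 / (2 * L) * (L ^ 6 / (2 * P)) := by field_simp; ring
      _ ≤ _ := mul_le_mul h9 h10 (by positivity) (lf_pos _).le
  have h12 : 2 * √(((Hn n : ℝ) + 1) * L) ≤ 4 * L ^ 4 := by
    have b1 : ((Hn n : ℝ) + 1) * L ≤ (2 * L ^ 4) ^ 2 := by
      have b2 : (Hn n : ℝ) + 1 ≤ 2 * L ^ 6 := by
        have : 1 ≤ L ^ 6 := one_le_pow₀ (by linarith [h2.1])
        linarith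
      calc ((Hn n : ℝ) + 1) * L ≤ (2 * L ^ 6) * L := by gcongr
        _ = 2 * L ^ 7 := by ring
        _ ≤ 2 * (L * L ^ 7) := by nlinarith [pow_pos hL0 7, h2.1]
        _ ≤ (2 * L ^ 4) ^ 2 := by nlinarith [pow_pos hL0 8]
    have b3 : √(((Hn n : ℝ) + 1) * L) ≤ 2 * L ^ 4 := by
      rw [← Real.sqrt_sq (show (0 : ℝ) ≤ 2 * L ^ 4 by positivity)]
      exact Real.sqrt_le_sqrt b1
    linarith
  have h13 := le_abs_self C
  have h14 := h2.2.2
  have h15 : L ^ 5 / (16 * P) = L ^ 5 / (4 * P) / 4 := by field_simp; ring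
  have h16 : 0 ≤ L ^ 4 := by positivity
  linarith

end Pool.Agent.U310.Idx
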