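import Mathlib
import Pool.Agent.U310.Idx.Index

set_option autoImplicit false
set_option linter.unusedSectionVars false

/-! # Elementary asymptotics -/

open Filter
open scoped Topology

namespace Pool.Agent.U310.Idx

lemma hlogn : Tendsto (fun n : ℕ => Real.log n) atTop atTop := Real.tendsto_log_atTop.comp tendsto_natCast_atTop_atTop

lemma loglog0 : Tendsto (fun n : ℕ => Real.log (Real.log n) / Real.log n) atTop (𝓝 0) := by
  have h : Tendsto (fun x : ℝ => Real.log x / x) atTop (𝓝 0) := by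
    have := Real.isLittleO_log_id_atTop.tendsto_div_nhds_zero
    exact this
  exact h.comp hlogn

/-- `log U / log n → a` -/
lemma log_ratio {U : ℕ → ℕ} {a c : ℕ}
    (h : ∀ᶠ n : ℕ in atTop, (n : ℝ) ^ a / Real.log n ^ c ≤ U n ∧ (U n : ℝ) ≤ (n : ℝ) ^ a * Real.log n ^ c) :
    Tendsto (fun n : ℕ => Real.log (U n) / Real.log n) atTop (𝓝 a) := by
  have h1 : Tendsto (fun n : ℕ => (a : ℝ) - c * (Real.log (Real.log n) / Real.log n)) atTop (𝓝 a) := by
    simpa using (tendsto_const_nhds (x := (a : ℝ))).sub (loglog0.const_mul (c : ℝ))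
  have h2 : Tendsto (fun n : ℕ => (a : ℝ) + c * (Real.log (Real.log n) / Real.log n)) atTop (𝓝 a) := by
    simpa using (tendsto_const_nhds (x := (a : ℝ))).add (loglog0.const_mul (c : ℝ))
  refine tendsto_of_tendsto_of_tendsto_of_le_of_le' h1 h2 ?_ ?_
  · filter_upwards [h, hlogn.eventually_gt_atTop 0, eventually_ge_atTop 1] with n hn hL hn1
    have hn0 : (0 : ℝ) < n := by exact_mod_cast hn1
    rw [le_div_iff₀ hL]
    have e1 := Real.log_le_log (by positivity) hn.1
    rw [Real.log_div (by positivity) (by positivity), Real.log_pow, Real.log_pow] at e1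
    refine le_trans (le_of_eq ?_) e1
    field_simp
  · filter_upwards [h, hlogn.eventually_gt_atTop 0, eventually_ge_atTop 1] with n hn hL hn1
    have hn0 : (0 : ℝ) < n := by exact_mod_cast hn1
    rw [div_le_iff₀ hL]
    have h3 : (0 : ℝ) < U n := lt_of_lt_of_le (by positivity) hn.1
    have e1 := Real.log_le_log h3 hn.2
    rw [Real.log_mul (by positivity) (by positivity), Real.log_pow, Real.log_pow] at e1
    refine e1.trans (le_of_eq ?_)
    field_simp

lemma lf_ratio {U : ℕ → ℕ} {a c : ℕ} (ha : 0 < a)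
    (h : ∀ᶠ n : ℕ in atTop, (n : ℝ) ^ a / Real.log n ^ c ≤ U n ∧ (U n : ℝ) ≤ (n : ℝ) ^ a * Real.log n ^ c) :
    Tendsto (fun n : ℕ => lf (U n) * (a * Real.log n)) atTop (𝓝 1) := by
  have h1 := log_ratio h
  have ha' : (a : ℝ) ≠ 0 := by exact_mod_cast ha.ne'
  have h2 : Tendsto (fun n : ℕ => (a : ℝ) / (Real.log (U n) / Real.log n)) atTop (𝓝 ((a : ℝ) / a)) :=
    tendsto_const_nhds.div h1 ha'
  rw [div_self ha'] at h2
  refine h2.congr' ?_
  -- `U n ≥ 3`
  have hU : Tendsto (fun n : ℕ => Real.log (U n)) atTop atTop := by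
    have : Tendsto (fun n : ℕ => (Real.log (U n) / Real.log n) * Real.log n) atTop atTop :=
      Tendsto.pos_mul_atTop (by exact_mod_cast ha) h1 hlogn
    refine this.congr' ?_
    filter_upwards [hlogn.eventually_gt_atTop 0] with n hn
    field_simp
  filter_upwards [hU.eventually_ge_atTop 2, hlogn.eventually_gt_atTop 0] with n hn hL
  have h3 : 3 ≤ U n := by
    by_contra hc
    push_neg at hc
    have h4 : Real.log (U n) < 2 := by
      have h5 : ((U n : ℕ) : ℝ) ≤ 2 := by exact_mod_cast (by omega : U n ≤ 2)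
      rcases Nat.eq_zero_or_pos (U n) with h6 | h6
      · rw [h6]; simp
      · have h7 := Real.log_le_log (by exact_mod_cast h6) h5
        have := Real.log_two_lt_d9
        linarith
    linarith
  rw [lf_eq h3]
  have : Real.log (U n) ≠ 0 := by linarith
  field_simp

lemma polylog0 (c : ℕ) : Tendsto (fun n : ℕ => Real.log n ^ c / √(n : ℝ)) atTop (𝓝 0) := by
  have h := (isLittleO_log_rpow_rpow_atTop (s := 1 / 2) (c : ℝ) (by norm_num)).tendsto_div_nhds_zero
  have h2 := h.comp (tendsto_natCast_atTop_atTop (R := ℝ))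
  refine h2.congr fun n => ?_
  simp only [Function.comp]
  rw [Real.rpow_natCast, Real.sqrt_eq_rpow]

/-- `polylog ≤ n` -/
lemma ev_pow (c : ℕ) : ∀ᶠ n : ℕ in atTop, Real.log n ^ c ≤ (n : ℝ) := by
  have := (Real.isLittleO_pow_log_id_atTop (n := c)).bound (show (0 : ℝ) < 1 by norm_num)
  filter_upwards [tendsto_natCast_atTop_atTop.eventually this] with n hn
  simp only [id, Real.norm_eq_abs, one_mul] at hn
  have h5 : |(n : ℝ)| = n := abs_of_nonneg (Nat.cast_nonneg n)
  rw [h5] at hn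
  exact (le_abs_self _).trans hn

lemma ratio_tendsto (x y e : ℕ → ℝ) (v : ℝ)
    (h : ∀ ε > 0, ∃ C : ℝ, ∀ᶠ n in atTop, |x n - v * y n| ≤ ε * y n + C + e n)
    (hy : Tendsto y atTop atTop) (he : Tendsto (fun n => e n / y n) atTop (𝓝 0)) :
    Tendsto (fun n => x n / y n) atTop (𝓝 v) := by
  rw [Metric.tendsto_atTop]
  intro ε hε
  obtain ⟨C, hC⟩ := h (ε / 4) (by positivity)
  have h1 : Tendsto (fun n => C / y n) atTop (𝓝 0) := hy.const_div_atTop C
  have h2 : ∀ᶠ n in atTop, |x n / y n - v| < ε := by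
    filter_upwards [hC, hy.eventually_gt_atTop 0, h1.eventually (gt_mem_nhds (show (0 : ℝ) < ε / 4 by positivity)),
      he.eventually (gt_mem_nhds (show (0 : ℝ) < ε / 4 by positivity))] with n e1 e2 e3 e4
    have e5 : x n / y n - v = (x n - v * y n) / y n := by field_simp
    rw [e5, abs_div, abs_of_pos e2]
    have e6 : |x n - v * y n| / y n ≤ (ε / 4 * y n + C + e n) / y n := by gcongr
    have e7 : (ε / 4 * y n + C + e n) / y n = ε / 4 + C / y n + e n / y n := by field_simp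
    linarith
  obtain ⟨N, hN⟩ := eventually_atTop.1 h2
  exact ⟨N, fun n hn => by rw [Real.dist_eq]; exact hN n hn⟩

/-- sums of a slowly varying function -/
lemma slow_sum (s : ℕ → Finset ℕ) (q : ℕ → ℕ → ℕ) (U D : ℕ → ℕ) (a : ℝ) (ha : 0 ≤ a)
    (hs : ∀ᶠ n in atTop, s n ⊆ Finset.Icc 1 n) (hpos : ∀ᶠ n in atTop, 0 < (s n).card)
    (hU : ∀ᶠ n in atTop, ∀ k ∈ s n, q n k ≤ U n)
    (hD : ∀ᶠ n : ℕ in atTop, ∀ k ∈ s n, (n : ℝ) / Real.log n ^ 3 < k → D n ≤ q n k)
    (h1 : Tendsto (fun n : ℕ => lf (U n) * (a * Real.log n)) atTop (𝓝 1))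
    (h2 : Tendsto (fun n : ℕ => lf (D n) * (a * Real.log n)) atTop (𝓝 1))
    (h3 : Tendsto (fun n : ℕ => (n : ℝ) / (Real.log n ^ 2 * (s n).card)) atTop (𝓝 0)) :
    Tendsto (fun n : ℕ => (∑ k ∈ s n, lf (q n k)) * (a * Real.log n) / (s n).card) atTop (𝓝 1) := by
  classical
  have h4 : Tendsto (fun n : ℕ => lf (D n) * (a * Real.log n) + a * ((n : ℝ) / (Real.log n ^ 2 * (s n).card))) atTop (𝓝 1) := by
    simpa using h2.add (h3.const_mul a)
  refine tendsto_of_tendsto_of_tendsto_of_le_of_le' h1 h4 ?_ ?_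
  · filter_upwards [hU, hpos, hlogn.eventually_gt_atTop 0] with n e1 e2 e3
    have e4 : (0 : ℝ) < (s n).card := by exact_mod_cast e2
    rw [le_div_iff₀ e4]
    have e5 : ((s n).card : ℝ) * lf (U n) ≤ ∑ k ∈ s n, lf (q n k) := by
      rw [← nsmul_eq_mul, ← Finset.sum_const]
      exact Finset.sum_le_sum fun k hk => lf_anti (e1 k hk)
    have e6 : 0 ≤ a * Real.log n := by positivity
    nlinarith
  · filter_upwards [hD, hs, hpos, hlogn.eventually_gt_atTop 0] with n e1 e1' e2 e3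
    have e4 : (0 : ℝ) < (s n).card := by exact_mod_cast e2
    rw [div_le_iff₀ e4]
    have e5 : ∑ k ∈ s n, lf (q n k) ≤ (n : ℝ) / Real.log n ^ 3 + (s n).card * lf (D n) := by
      have f1 : ∀ k ∈ s n, lf (q n k) ≤ (if (k : ℝ) ≤ (n : ℝ) / Real.log n ^ 3 then 1 else 0) + lf (D n) := by
        intro k hk
        split_ifs with hc
        · linarith [lf_le (q n k), lf_pos (D n)]
        · rw [zero_add]
          exact lf_anti (e1 k hk (not_le.1 hc))
      refine (Finset.sum_le_sum f1).trans ?_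
      rw [Finset.sum_add_distrib, Finset.sum_const, nsmul_eq_mul]
      have f2 : ∑ k ∈ s n, (if (k : ℝ) ≤ (n : ℝ) / Real.log n ^ 3 then (1 : ℝ) else 0) ≤ (n : ℝ) / Real.log n ^ 3 := by
        rw [← Finset.sum_filter, Finset.sum_const, nsmul_eq_mul, mul_one]
        have f3 : ((s n).filter (fun k : ℕ => (k : ℝ) ≤ (n : ℝ) / Real.log n ^ 3)).card ≤ ⌊(n : ℝ) / Real.log n ^ 3⌋₊ := by
          calc _ ≤ (Finset.Icc 1 ⌊(n : ℝ) / Real.log n ^ 3⌋₊).card := Finset.card_le_card fun k hk => by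
                rw [Finset.mem_filter] at hk
                rw [Finset.mem_Icc]
                exact ⟨(Finset.mem_Icc.1 (e1' hk.1)).1, Nat.le_floor hk.2⟩
            _ = _ := by rw [Nat.card_Icc, Nat.add_sub_cancel]
        have f4 : (⌊(n : ℝ) / Real.log n ^ 3⌋₊ : ℝ) ≤ (n : ℝ) / Real.log n ^ 3 := Nat.floor_le (by positivity)
        have f5 : (((s n).filter (fun k : ℕ => (k : ℝ) ≤ (n : ℝ) / Real.log n ^ 3)).card : ℝ) ≤ ⌊(n : ℝ) / Real.log n ^ 3⌋₊ := by
          exact_mod_cast f3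
        linarith
      linarith
    have e6 : 0 ≤ a * Real.log n := by positivity
    have e7 := mul_le_mul_of_nonneg_right e5 e6
    refine e7.trans (le_of_eq ?_)
    field_simp
    ring

end Pool.Agent.U310.Idx
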