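import Mathlib
import Pool.Agent.U310.Idx.Index

set_option autoImplicit false
set_option linter.unusedSectionVars false

/-! # The law of the residues of the elements of a sieved random set along index sets -/

open MeasureTheory Filter Set
open scoped ENNReal Topology

namespace Pool.Agent.U310.Idx

open Pool.Agent.R528.RM

variable {Ω : Type} {m0 : MeasurableSpace Ω} {μ : Measure Ω} [IsProbabilityMeasure μ]
  {ℱ : Filtration ℕ m0} {A : ℕ → Set Ω}

open Classical in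
/-- the number of the chosen integers up to `M` in the class `a` modulo `P` whose predecessors satisfy `g` -/
noncomputable def Ta (A : ℕ → Set Ω) (g : Finset ℕ → Prop) (P a : ℕ) (M : ℕ) (ω : Ω) : ℝ :=
  ∑ T ∈ Finset.range M, W A g T ω * (if (T + 1) % P = a then 1 else 0) * In A (T + 1) ω

open Classical in
/-- the time spent in the class `a` -/
noncomputable def Fa (A : ℕ → Set Ω) (g : Finset ℕ → Prop) (P a : ℕ) (M : ℕ) (ω : Ω) : ℝ :=
  ∑ T ∈ Finset.range M, W A g T ω * lf (T + 1) * (if (T + 1) % P = a then 1 else 0)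

lemma Fa_nonneg (g : Finset ℕ → Prop) (P a M : ℕ) (ω : Ω) : 0 ≤ Fa A g P a M ω :=
  Finset.sum_nonneg fun _ _ => mul_nonneg (mul_nonneg (W_nonneg _ _ _) (lf_pos _).le) (by split_ifs <;> norm_num)

/-- the coprime classes -/
def Cl (P : ℕ) : Finset ℕ := (Finset.range P).filter (fun a => Nat.Coprime a P)

lemma Cl_card (P : ℕ) : (Cl P).card = Nat.totient P := by
  rw [Nat.totient_eq_card_coprime]
  congr 1
  ext a
  unfold Cl
  rw [Finset.mem_filter, Finset.mem_filter, Nat.coprime_comm]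

lemma cop_mod {P n : ℕ} : Nat.Coprime (n % P) P ↔ Nat.Coprime n P := by
  rw [Nat.coprime_iff_gcd_eq_one, Nat.coprime_iff_gcd_eq_one, Nat.gcd_comm n P, Nat.gcd_rec P n]

lemma R_eq (g : Finset ℕ → Prop) {P : ℕ} (hP : 0 < P) (M : ℕ) (ω : Ω) :
    ∑ T ∈ Finset.range M, W A g T ω * rho P (T + 1) = kap P * ∑ a ∈ Cl P, Fa A g P a M ω := by
  classical
  unfold Fa
  rw [Finset.sum_comm, Finset.mul_sum]
  refine Finset.sum_congr rfl fun T _ => ?_
  rw [← Finset.mul_sum, Finset.sum_ite_eq]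
  unfold rho Cl
  have h : (T + 1) % P < P := Nat.mod_lt _ hP
  by_cases hc : Nat.Coprime (T + 1) P
  · rw [if_pos hc, if_pos (by rw [Finset.mem_filter, Finset.mem_range]; exact ⟨h, cop_mod.2 hc⟩)]
    ring
  · rw [if_neg hc, if_neg (by rw [Finset.mem_filter]; rintro ⟨_, h2⟩; exact hc (cop_mod.1 h2))]
    ring

lemma Ra_eq (g : Finset ℕ → Prop) {P a : ℕ} (hP : 0 < P) (ha : a ∈ Cl P) (M : ℕ) (ω : Ω) :
    ∑ T ∈ Finset.range M, W A g T ω * (if (T + 1) % P = a then 1 else 0) * rho P (T + 1) = kap P * Fa A g P a M ω := by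
  classical
  unfold Fa
  rw [Finset.mul_sum]
  refine Finset.sum_congr rfl fun T _ => ?_
  unfold rho
  unfold Cl at ha
  rw [Finset.mem_filter] at ha
  by_cases h : (T + 1) % P = a
  · rw [if_pos h, if_pos (by rw [← cop_mod, h]; exact ha.2)]
    ring
  · rw [if_neg h]; ring

/-- **index law** -/
theorem index_law (hA : ∀ n, MeasurableSet[ℱ n] (A n)) {P : ℕ} (hP : 0 < P)
    (hd : ∀ᵐ ω ∂μ, ∀ ε > 0, ∀ᶠ T : ℕ in atTop, |dens μ ℱ A T ω - rho P (T + 1)| ≤ ε * rho P (T + 1))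
    (g : ℕ → Finset ℕ → Prop) (M : ℕ → ℕ) (K : ℕ) (hM : ∀ᶠ n in atTop, M n ≤ n ^ K) :
    ∀ᵐ ω ∂μ, ∀ ε > 0, ∀ᶠ n : ℕ in atTop, Th A (g n) (M n) ω ≤ n → ∀ a ∈ Cl P,
      |Ta A (g n) P a (M n) ω - Th A (g n) (M n) ω / Nat.totient P| ≤
        ε * Th A (g n) (M n) ω + 20 * (√n * Real.log n ^ 5) := by
  classical
  have hP' : (0 : ℝ) < P := by exact_mod_cast hP
  have hφ : 0 < Nat.totient P := Nat.totient_pos.2 hP
  have hφ' : (1 : ℝ) ≤ Nat.totient P := by exact_mod_cast hφ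
  have hκ := kap_ge hP
  set B : ℕ → ℝ := fun n => n * Real.log n ^ 8 with hB
  have hB0 : ∀ n, 0 ≤ B n := fun n => by simp only [hB]; positivity
  have l1 := lawL (μ := μ) hA (rho P) (rho_nonneg hP) hd
    (fun n _ U => if g n U then 1 else 0) (fun n T U => by split_ifs <;> norm_num) M B hB0
  have l2 : ∀ᵐ ω ∂μ, ∀ a ∈ Cl P, ∀ ε > 0, ∃ C : ℝ, ∀ᶠ n : ℕ in atTop,
      Vg A (fun T U => (if g n U then (1 : ℝ) else 0) * (if (T + 1) % P = a then 1 else 0)) (M n) ω ≤ B n →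
      |∑ T ∈ Finset.range (M n), (if g n (St A T ω) then (1 : ℝ) else 0) * (if (T + 1) % P = a then 1 else 0) *
        (A (T + 1)).indicator (fun _ => (1 : ℝ)) ω -
        ∑ T ∈ Finset.range (M n), (if g n (St A T ω) then (1 : ℝ) else 0) * (if (T + 1) % P = a then 1 else 0) * rho P (T + 1)| ≤
      ε * ∑ T ∈ Finset.range (M n), (if g n (St A T ω) then (1 : ℝ) else 0) * (if (T + 1) % P = a then 1 else 0) * rho P (T + 1) +
        C + 2 * √((B n + 1) * Real.log n) := by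
    rw [Finset.eventually_all]
    intro a _
    exact lawL (μ := μ) hA (rho P) (rho_nonneg hP) hd
      (fun n T U => (if g n U then (1 : ℝ) else 0) * (if (T + 1) % P = a then 1 else 0))
      (fun n T U => by split_ifs <;> norm_num) M B hB0
  filter_upwards [l1, l2, gap (μ := μ) hA hP hd] with ω h1 h2 h3
  intro ε hε
  obtain ⟨T0, hT0⟩ := eventually_atTop.1 h3
  set δ : ℝ := min (1 / 2) (ε / (8 + 4 * kap P * P)) with hδ
  have hδ0 : 0 < δ := by rw [hδ]; positivity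
  have hδ1 : δ ≤ 1 / 2 := min_le_left _ _
  have hδ2 : δ * (8 + 4 * kap P * P) ≤ ε := by
    have := min_le_right (1 / 2) (ε / (8 + 4 * kap P * P))
    rw [← hδ] at this
    rwa [le_div_iff₀ (by positivity)] at this
  obtain ⟨T1, hT1⟩ := lf_small hδ0
  obtain ⟨C1, hC1⟩ := h1 δ hδ0
  have h2' : ∃ C2 : ℝ, ∀ a ∈ Cl P, ∀ᶠ n : ℕ in atTop,
      Vg A (fun T U => (if g n U then (1 : ℝ) else 0) * (if (T + 1) % P = a then 1 else 0)) (M n) ω ≤ B n →
      |Ta A (g n) P a (M n) ω - kap P * Fa A (g n) P a (M n) ω| ≤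
      δ * (kap P * Fa A (g n) P a (M n) ω) + C2 + 2 * √((B n + 1) * Real.log n) := by
    choose! C hC using fun a ha => h2 a ha δ hδ0
    refine ⟨∑ a ∈ Cl P, |C a|, fun a ha => ?_⟩
    filter_upwards [hC a ha] with n hn hV
    have b1 := hn hV
    have b2 : |C a| ≤ ∑ a ∈ Cl P, |C a| := Finset.single_le_sum (f := fun a => |C a|) (fun _ _ => abs_nonneg _) ha
    have b3 := le_abs_self (C a)
    have b4 := Ra_eq (A := A) (g n) hP ha (M n) ω
    unfold W at b4
    rw [b4] at b1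
    unfold Ta W In
    linarith
  obtain ⟨C2, hC2⟩ := h2'
  have hC2' : ∀ᶠ n : ℕ in atTop, ∀ a ∈ Cl P,
      Vg A (fun T U => (if g n U then (1 : ℝ) else 0) * (if (T + 1) % P = a then 1 else 0)) (M n) ω ≤ B n →
      |Ta A (g n) P a (M n) ω - kap P * Fa A (g n) P a (M n) ω| ≤
      δ * (kap P * Fa A (g n) P a (M n) ω) + C2 + 2 * √((B n + 1) * Real.log n) := by
    rw [Finset.eventually_all]
    exact hC2
  have hlog : Tendsto (fun n : ℕ => Real.log n) atTop atTop := Real.tendsto_log_atTop.comp tendsto_natCast_atTop_atTop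
  have hK : ∀ᶠ L : ℝ in atTop, 1 ≤ L ∧ (T0 : ℝ) + 2 * ((K : ℝ) ^ 6 * L ^ 6) ≤ L ^ 8 ∧
      4 * |C1| + 4 * |C2| + 4 * kap P * P * (4 + 2 * T1) ≤ L := by
    have a1 : ∀ᶠ L : ℝ in atTop, max 1 (max (T0 + 2 * (K : ℝ) ^ 6) (4 * |C1| + 4 * |C2| + 4 * kap P * P * (4 + 2 * T1))) ≤ L :=
      eventually_ge_atTop _
    filter_upwards [a1] with L hL
    have b1 : 1 ≤ L := (le_max_left _ _).trans hL
    have b2 : T0 + 2 * (K : ℝ) ^ 6 ≤ L := ((le_max_left _ _).trans (le_max_right _ _)).trans hL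
    refine ⟨b1, ?_, ((le_max_right _ _).trans (le_max_right _ _)).trans hL⟩
    have c1 : 1 ≤ L ^ 6 := one_le_pow₀ b1
    have c2 : (T0 : ℝ) ≤ T0 * L ^ 6 := le_mul_of_one_le_right (Nat.cast_nonneg _) c1
    calc (T0 : ℝ) + 2 * ((K : ℝ) ^ 6 * L ^ 6) ≤ (T0 + 2 * (K : ℝ) ^ 6) * L ^ 6 := by linarith
      _ ≤ L * L ^ 6 := mul_le_mul_of_nonneg_right b2 (by positivity)
      _ = L ^ 7 := by ring
      _ ≤ L ^ 8 := pow_le_pow_right₀ b1 (by norm_num)
  filter_upwards [hC1, hC2', hM, hlog.eventually hK, eventually_ge_atTop 3] with n e1 e2 e3 e4 e5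
  intro hTh a ha
  have hn3 : (3 : ℝ) ≤ n := by exact_mod_cast e5
  have hn0 : (0 : ℝ) < n := by linarith
  set L := Real.log n with hL
  set Θ := Th A (g n) (M n) ω with hΘ
  have hΘ0 : 0 ≤ Θ := Th_nonneg _ _ _
  -- total time
  have hV : ∑ T ∈ Finset.range (M n), W A (g n) T ω ≤ B n := by
    have b1 := time_le (A := A) (g n) (T0 := T0) (H := ⌊(K : ℝ) ^ 6 * L ^ 6⌋₊) (M := M n) ω ?_
    · refine b1.trans ?_
      rw [← hΘ]
      have b2 : (⌊(K : ℝ) ^ 6 * L ^ 6⌋₊ : ℝ) ≤ (K : ℝ) ^ 6 * L ^ 6 := Nat.floor_le (by positivity)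
      have b3 : (⌊(K : ℝ) ^ 6 * L ^ 6⌋₊ : ℝ) * Θ ≤ ((K : ℝ) ^ 6 * L ^ 6) * n :=
        mul_le_mul b2 hTh hΘ0 (by positivity)
      have b4 : (K : ℝ) ^ 6 * L ^ 6 ≤ ((K : ℝ) ^ 6 * L ^ 6) * n := le_mul_of_one_le_right (by positivity) (by linarith)
      have b5 : (T0 : ℝ) ≤ T0 * n := le_mul_of_one_le_right (Nat.cast_nonneg _) (by linarith)
      calc (T0 : ℝ) + ⌊(K : ℝ) ^ 6 * L ^ 6⌋₊ + ⌊(K : ℝ) ^ 6 * L ^ 6⌋₊ * Θ
          ≤ (T0 + 2 * ((K : ℝ) ^ 6 * L ^ 6)) * n := by linarith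
        _ ≤ L ^ 8 * n := mul_le_mul_of_nonneg_right e4.2.1 hn0.le
        _ = B n := by simp only [hB]; ring
    · intro T hT hTM
      obtain ⟨t, ht1, ht2, ht3⟩ := hT0 T hT
      refine ⟨t, ht1, lt_of_lt_of_le ht2 ?_, ht3⟩
      have : Hn T ≤ ⌊(K : ℝ) ^ 6 * L ^ 6⌋₊ := by
        unfold Hn
        apply Nat.floor_le_floor
        rw [← mul_pow]
        rcases Nat.eq_zero_or_pos T with h0 | h0
        · rw [h0]; simp; positivity
        have c1 : Real.log T ≤ K * L := by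
          rw [hL, ← Real.log_pow]
          apply Real.log_le_log (by exact_mod_cast h0)
          have : T ≤ n ^ K := by omega
          exact_mod_cast this
        exact pow_le_pow_left₀ (Real.log_nonneg (by exact_mod_cast h0)) c1 6
      omega
  have hV1 : Vg A (fun _ U => if g n U then (1 : ℝ) else 0) (M n) ω ≤ B n := by
    refine le_trans (le_of_eq ?_) hV
    unfold Vg
    refine Finset.sum_congr rfl fun T _ => ?_
    unfold W
    by_cases c : g n (St A T ω)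
    · simp [c]
    · simp [c]
  have hV2 : Vg A (fun T U => (if g n U then (1 : ℝ) else 0) * (if (T + 1) % P = a then 1 else 0)) (M n) ω ≤ B n := by
    refine le_trans ?_ hV
    unfold Vg
    refine Finset.sum_le_sum fun T _ => ?_
    unfold W
    by_cases c : g n (St A T ω)
    · by_cases c' : (T + 1) % P = a
      · simp [c, c']
      · simp [c, c']
    · simp [c]
  have f1 := e1 hV1
  have f2 := e2 a ha hV2
  set R := ∑ T ∈ Finset.range (M n), W A (g n) T ω * rho P (T + 1) with hR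
  have f1' : |Θ - R| ≤ δ * R + C1 + 2 * √((B n + 1) * L) := f1
  have hRe := R_eq (A := A) (g n) hP (M n) ω
  rw [← hR] at hRe
  set F := ∑ T ∈ Finset.range (M n), W A (g n) T ω * lf (T + 1) with hF
  set Δ := (P : ℝ) * (3 + 2 * T1 + δ * (2 * Θ + 1)) with hΔ
  have hΔ0 : 0 ≤ Δ := by positivity
  have heq : ∀ b ∈ Cl P, |Fa A (g n) P b (M n) ω - (1 / P) * F| ≤ Δ := by
    intro b hb
    unfold Cl at hb
    rw [Finset.mem_filter, Finset.mem_range] at hb
    exact equi_time (A := A) (g n) lf lf_anti (fun n => (lf_pos n).le) lf_le hP hb.1 hδ0.le hT1 (M n) ω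
  have hkφ : kap P * Nat.totient P = P := by unfold kap; field_simp
  have hFR : |R - F| ≤ P * Δ := by
    have b1 : R - F = kap P * ∑ b ∈ Cl P, (Fa A (g n) P b (M n) ω - (1 / P) * F) := by
      rw [Finset.sum_sub_distrib, Finset.sum_const, Cl_card, mul_sub, ← hRe, nsmul_eq_mul]
      have : kap P * (Nat.totient P * (1 / P * F)) = (kap P * Nat.totient P) * (1 / P) * F := by ring
      rw [this, hkφ]
      field_simp
    rw [b1, abs_mul, abs_of_nonneg (by linarith : (0 : ℝ) ≤ kap P)]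
    have b2 : |∑ b ∈ Cl P, (Fa A (g n) P b (M n) ω - (1 / P) * F)| ≤ Nat.totient P * Δ := by
      refine (Finset.abs_sum_le_sum_abs _ _).trans ((Finset.sum_le_sum heq).trans ?_)
      rw [Finset.sum_const, Cl_card, nsmul_eq_mul]
    calc _ ≤ kap P * (Nat.totient P * Δ) := mul_le_mul_of_nonneg_left b2 (by linarith)
      _ = (kap P * Nat.totient P) * Δ := by ring
      _ = _ := by rw [hkφ]
  have hR0 : 0 ≤ R := Finset.sum_nonneg fun T _ => mul_nonneg (W_nonneg _ _ _) (rho_nonneg hP _)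
  have hFaR : kap P * Fa A (g n) P a (M n) ω ≤ R := by
    rw [hRe]
    apply mul_le_mul_of_nonneg_left _ (by linarith)
    exact Finset.single_le_sum (f := fun b => Fa A (g n) P b (M n) ω) (fun _ _ => Fa_nonneg _ _ _ _ _) ha
  set E := 2 * √((B n + 1) * L) with hE
  have hE0 : 0 ≤ E := by positivity
  have g1 : |kap P * Fa A (g n) P a (M n) ω - R / Nat.totient P| ≤ 2 * (kap P * Δ) := by
    have b1 := heq a ha
    have b2 : kap P * Fa A (g n) P a (M n) ω - R / Nat.totient P =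
        kap P * (Fa A (g n) P a (M n) ω - (1 / P) * F) - (R - F) / Nat.totient P := by
      have : kap P * (1 / P * F) = F / Nat.totient P := by unfold kap; field_simp
      rw [mul_sub, this]; ring
    rw [b2]
    have b3 : |kap P * (Fa A (g n) P a (M n) ω - (1 / P) * F)| ≤ kap P * Δ := by
      rw [abs_mul, abs_of_nonneg (by linarith : (0 : ℝ) ≤ kap P)]
      exact mul_le_mul_of_nonneg_left b1 (by linarith)
    have b4 : |(R - F) / Nat.totient P| ≤ kap P * Δ := by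
      rw [abs_div, abs_of_nonneg (by linarith : (0 : ℝ) ≤ (Nat.totient P : ℝ)), div_le_iff₀ (by linarith)]
      calc _ ≤ P * Δ := hFR
        _ = kap P * Δ * Nat.totient P := by rw [← hkφ]; ring
    have b5 := abs_sub (kap P * (Fa A (g n) P a (M n) ω - (1 / P) * F)) ((R - F) / Nat.totient P)
    linarith
  have hRle : R ≤ 2 * (Θ + |C1| + E) := by
    have b1 := (abs_le.1 f1').1
    have b2 := le_abs_self C1
    have b3 : δ * R ≤ 1 / 2 * R := mul_le_mul_of_nonneg_right hδ1 hR0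
    linarith
  have hΘR : |R / Nat.totient P - Θ / Nat.totient P| ≤ δ * R + |C1| + E := by
    rw [← sub_div, abs_div, abs_of_nonneg (by linarith : (0 : ℝ) ≤ (Nat.totient P : ℝ)), div_le_iff₀ (by linarith)]
    have b1 : |R - Θ| ≤ δ * R + |C1| + E := by
      rw [abs_sub_comm]; exact f1'.trans (by linarith [le_abs_self C1])
    have b2 : 0 ≤ δ * R + |C1| + E := by positivity
    nlinarith
  have hE' : E ≤ 4 * (√n * L ^ 5) := by
    have b1 : (B n + 1) * L ≤ (2 * (√n * L ^ 5)) ^ 2 := by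
      rw [mul_pow, mul_pow, Real.sq_sqrt hn0.le]
      simp only [hB]
      have c1 : 1 ≤ L := e4.1
      have c2 : 1 ≤ L ^ 8 := one_le_pow₀ c1
      have c3 : 1 ≤ n * L ^ 8 := by nlinarith
      calc (n * L ^ 8 + 1) * L ≤ (2 * (n * L ^ 8)) * L := by gcongr; linarith
        _ ≤ (2 * (n * L ^ 8)) * L ^ 2 := by gcongr; nlinarith
        _ ≤ 2 ^ 2 * (n * (L ^ 5) ^ 2) := by nlinarith [pow_pos (by linarith : (0 : ℝ) < L) 10]
    have b2 : √((B n + 1) * L) ≤ 2 * (√n * L ^ 5) := by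
      have c1 : (0 : ℝ) ≤ L := by linarith [e4.1]
      rw [← Real.sqrt_sq (show (0 : ℝ) ≤ 2 * (√n * L ^ 5) by positivity)]
      exact Real.sqrt_le_sqrt b1
    rw [hE]; linarith
  have hL1 : 1 ≤ L := e4.1
  have hsq : 1 ≤ √(n : ℝ) := by rw [Real.one_le_sqrt]; linarith
  have hLs : L ≤ √n * L ^ 5 := by
    have : L ≤ L ^ 5 := le_self_pow₀ hL1 (by norm_num)
    nlinarith [pow_pos (by linarith : (0 : ℝ) < L) 5]
  have hfin : |Ta A (g n) P a (M n) ω - Θ / Nat.totient P| ≤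
      (δ * R + |C2| + E) + 2 * (kap P * Δ) + (δ * R + |C1| + E) := by
    have b1 : |Ta A (g n) P a (M n) ω - kap P * Fa A (g n) P a (M n) ω| ≤ δ * R + |C2| + E := by
      refine f2.trans ?_
      have := mul_le_mul_of_nonneg_left hFaR hδ0.le
      linarith [le_abs_self C2]
    have b2 : Ta A (g n) P a (M n) ω - Θ / Nat.totient P =
        (Ta A (g n) P a (M n) ω - kap P * Fa A (g n) P a (M n) ω) +
        (kap P * Fa A (g n) P a (M n) ω - R / Nat.totient P) + (R / Nat.totient P - Θ / Nat.totient P) := by ring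
    rw [b2]
    refine (abs_add_three _ _ _).trans ?_
    linarith
  refine hfin.trans ?_
  have h4 := e4.2.2
  have c1 : δ * R ≤ 2 * δ * Θ + (|C1| + E) := by
    have := mul_le_mul_of_nonneg_left hRle hδ0.le
    have b1 : δ * (|C1| + E) ≤ 1 / 2 * (|C1| + E) := mul_le_mul_of_nonneg_right hδ1 (by positivity)
    nlinarith
  have c2 : 2 * (kap P * Δ) ≤ 2 * kap P * P * (4 + 2 * T1) + δ * (4 * kap P * P) * Θ := by
    rw [hΔ]
    have : δ * (2 * Θ + 1) ≤ 2 * δ * Θ + 1 := by linarith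
    have b1 : 2 * (kap P * (P * (3 + 2 * T1 + δ * (2 * Θ + 1)))) ≤ 2 * (kap P * (P * (3 + 2 * T1 + (2 * δ * Θ + 1)))) := by
      gcongr
    refine b1.trans (le_of_eq ?_)
    ring
  have c3 : δ * (8 + 4 * kap P * P) * Θ ≤ ε * Θ := mul_le_mul_of_nonneg_right hδ2 hΘ0
  have c4 : 0 ≤ δ * Θ := by positivity
  have c5 : 0 ≤ kap P * P * (4 + 2 * T1) := by positivity
  have c6 := abs_nonneg C1
  have c7 := abs_nonneg C2
  have c8 : 0 ≤ √(n : ℝ) * L ^ 5 := by positivity
  have c9 : (δ * R + |C2| + E) + 2 * (kap P * Δ) + (δ * R + |C1| + E) ≤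
      δ * (8 + 4 * kap P * P) * Θ + (3 * |C1| + |C2| + 2 * kap P * P * (4 + 2 * T1)) + 4 * E := by
    linarith
  linarith

end Pool.Agent.U310.Idx
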