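import Mathlib
import Pool.Agent.U310.Idx.IL

set_option autoImplicit false
set_option linter.unusedSectionVars false

/-! # Elements and indices -/

open MeasureTheory Filter Set
open scoped ENNReal Topology

namespace Pool.Agent.U310.Idx

open Pool.Agent.R528.RM

variable {Ω : Type} {m0 : MeasurableSpace Ω} {μ : Measure Ω} [IsProbabilityMeasure μ]
  {ℱ : Filtration ℕ m0} {A : ℕ → Set Ω}

/-- `m` is a chosen positive integer -/
def sp (A : ℕ → Set Ω) (ω : Ω) (m : ℕ) : Prop := 1 ≤ m ∧ ω ∈ A m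

/-- the `j`-th chosen integer -/
noncomputable def pe (A : ℕ → Set Ω) (ω : Ω) (j : ℕ) : ℕ := Nat.nth (sp A ω) (j - 1)

open Classical in
lemma card_St (T : ℕ) (ω : Ω) : (St A T ω).card = Nat.count (sp A ω) (T + 1) := by
  rw [Nat.count_eq_card_filter_range]
  congr 1
  ext m
  rw [mem_St, Finset.mem_filter, Finset.mem_range]
  unfold sp
  constructor
  · rintro ⟨⟨h1, h2⟩, h3⟩; exact ⟨by omega, h1, h3⟩
  · rintro ⟨h1, h2, h3⟩; exact ⟨⟨h2, by omega⟩, h3⟩

variable {ω : Ω}

lemma pe_mem (hinf : (setOf (sp A ω)).Infinite) (j : ℕ) : sp A ω (pe A ω j) := Nat.nth_mem_of_infinite hinf _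

lemma pe_pos (hinf : (setOf (sp A ω)).Infinite) (j : ℕ) : 1 ≤ pe A ω j := (pe_mem hinf j).1

lemma card_St_pe (hinf : (setOf (sp A ω)).Infinite) {j : ℕ} (hj : 1 ≤ j) : (St A (pe A ω j - 1) ω).card + 1 = j := by
  classical
  rw [card_St, Nat.sub_add_cancel (pe_pos hinf j)]
  unfold pe
  rw [Nat.count_nth_of_infinite hinf]
  omega

lemma pe_card {T : ℕ} (h : ω ∈ A (T + 1)) : pe A ω ((St A T ω).card + 1) = T + 1 := by
  classical
  unfold pe
  rw [Nat.add_sub_cancel, card_St]
  exact Nat.nth_count ⟨by omega, h⟩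

lemma pe_ge (hinf : (setOf (sp A ω)).Infinite) {j : ℕ} (hj : 1 ≤ j) : j ≤ pe A ω j := by
  classical
  have h1 := card_St_pe hinf hj
  have h2 : (St A (pe A ω j - 1) ω).card ≤ pe A ω j - 1 := by
    have : St A (pe A ω j - 1) ω ⊆ Finset.Icc 1 (pe A ω j - 1) := by
      intro m hm; rw [mem_St] at hm; exact Finset.mem_Icc.2 hm.1
    have := Finset.card_le_card this
    rwa [Nat.card_Icc, Nat.add_sub_cancel] at this
  have h3 := pe_pos hinf j
  omega

lemma pe_le_iff (hinf : (setOf (sp A ω)).Infinite) {j M : ℕ} (hj : 1 ≤ j) :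
    pe A ω j ≤ M ↔ j ≤ (St A M ω).card := by
  classical
  rw [card_St]
  unfold pe
  constructor
  · intro h
    have h1 : Nat.nth (sp A ω) (j - 1) < M + 1 := by omega
    have h2 := Nat.lt_nth_iff_count_lt hinf (a := M + 1) (b := j - 1)
    by_contra h3
    have h4 : Nat.count (sp A ω) (M + 1) ≤ j - 1 := by omega
    have h5 : M + 1 ≤ Nat.nth (sp A ω) (j - 1) := by
      have := (Nat.le_nth_count hinf (M + 1)).trans ((Nat.nth_monotone hinf) h4)
      exact this
    omega
  · intro h
    have h1 : Nat.nth (sp A ω) (j - 1) < M + 1 := Nat.nth_lt_of_lt_count (by omega)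
    omega

open Classical in
/-- sums over the chosen integers as sums over the indices -/
lemma sum_index (hinf : (setOf (sp A ω)).Infinite) (G : ℕ → ℝ) (M : ℕ) :
    ∑ T ∈ Finset.range M, G T * In A (T + 1) ω = ∑ j ∈ Finset.Icc 1 (St A M ω).card, G (pe A ω j - 1) := by
  have h1 : ∑ T ∈ Finset.range M, G T * In A (T + 1) ω =
      ∑ T ∈ (Finset.range M).filter (fun T => ω ∈ A (T + 1)), G T := by
    rw [Finset.sum_filter]
    refine Finset.sum_congr rfl fun T _ => ?_
    split_ifs with h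
    · rw [In_of h, mul_one]
    · rw [In_of_not h, mul_zero]
  rw [h1]
  refine Finset.sum_nbij' (fun T => (St A T ω).card + 1) (fun j => pe A ω j - 1) ?_ ?_ ?_ ?_ ?_
  · intro T hT
    rw [Finset.mem_filter, Finset.mem_range] at hT
    rw [Finset.mem_Icc]
    refine ⟨by omega, ?_⟩
    rw [← pe_le_iff hinf (by omega), pe_card hT.2]
    omega
  · intro j hj
    rw [Finset.mem_Icc] at hj
    have h2 := (pe_le_iff hinf hj.1).2 hj.2
    have h3 := pe_pos hinf j
    rw [Finset.mem_filter, Finset.mem_range, Nat.sub_add_cancel h3]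
    exact ⟨by omega, (pe_mem hinf j).2⟩
  · intro T hT
    rw [Finset.mem_filter] at hT
    show pe A ω ((St A T ω).card + 1) - 1 = T
    rw [pe_card hT.2, Nat.add_sub_cancel]
  · intro j hj
    rw [Finset.mem_Icc] at hj
    exact card_St_pe hinf hj.1
  · intro T hT
    rw [Finset.mem_filter] at hT
    rw [pe_card hT.2, Nat.add_sub_cancel]

lemma infinite_of_gap (h : ∀ᶠ x : ℕ in atTop, ∃ t, x ≤ t ∧ t < x + Hn x ∧ ω ∈ A (t + 1)) : (setOf (sp A ω)).Infinite := by
  refine Set.infinite_of_forall_exists_gt fun a => ?_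
  obtain ⟨x, hx1, hx2⟩ := (h.and (eventually_ge_atTop a)).exists
  obtain ⟨t, ht1, _, ht3⟩ := hx1
  exact ⟨t + 1, ⟨by omega, ht3⟩, by omega⟩

/-- lower bound for the number of chosen integers -/
lemma card_lower {T0 H M : ℕ} (hgap : ∀ T, T0 ≤ T → T + H ≤ M → ∃ t, T ≤ t ∧ t < T + H ∧ ω ∈ A (t + 1)) :
    (M : ℝ) ≤ T0 + H + H * (St A M ω).card := by
  classical
  have h1 := time_le (A := A) (fun _ => True) ω hgap
  have h2 : Th A (fun _ => True) M ω = ((St A M ω).card : ℝ) := by
    unfold Th W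
    have h3 : ∀ T, In A (T + 1) ω = if ω ∈ A (T + 1) then 1 else 0 := by
      intro T
      split_ifs with h
      · exact In_of h
      · exact In_of_not h
    simp only [if_true, one_mul, h3]
    rw [← Finset.sum_filter, Finset.sum_const, nsmul_eq_mul, mul_one]
    congr 1
    refine Finset.card_nbij' (fun T => T + 1) (fun m => m - 1) ?_ ?_ ?_ ?_
    · intro T hT
      simp only [Finset.coe_filter, Finset.mem_range, Set.mem_setOf_eq] at hT
      simp only [Finset.mem_coe, mem_St]
      exact ⟨⟨by omega, by omega⟩, hT.2⟩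
    · intro m hm
      simp only [Finset.mem_coe, mem_St] at hm
      simp only [Finset.coe_filter, Finset.mem_range, Set.mem_setOf_eq]
      refine ⟨by omega, ?_⟩
      rw [Nat.sub_add_cancel hm.1.1]
      exact hm.2
    · intro T _
      simp
    · intro m hm
      simp only [Finset.mem_coe, mem_St] at hm
      exact Nat.sub_add_cancel hm.1.1
  rw [h2] at h1
  unfold W at h1
  simp only [if_true, Finset.sum_const, Finset.card_range, nsmul_eq_mul, mul_one] at h1
  exact h1

end Pool.Agent.U310.Idx
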