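import Mathlib
import Pool.Agent.U310.Idx.Nth

set_option autoImplicit false
set_option linter.unusedSectionVars false

/-! # Sums over the numbers `m ^ 2 - 2` -/

open MeasureTheory Filter Set
open scoped ENNReal Topology

namespace Pool.Agent.U310.Idx

open Pool.Agent.R528.RM

variable {Ω : Type} {m0 : MeasurableSpace Ω} {μ : Measure Ω} [IsProbabilityMeasure μ]
  {ℱ : Filtration ℕ m0} {A : ℕ → Set Ω}

/-- the weight at time `t`, where `t + 3 = (T + 1) ^ 2` -/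
noncomputable def sqw (G : ℕ → Finset ℕ → ℝ) (M : ℕ) (t : ℕ) (U : Finset ℕ) : ℝ :=
  if Nat.sqrt (t + 3) ^ 2 = t + 3 ∧ 3 ≤ Nat.sqrt (t + 3) ∧ Nat.sqrt (t + 3) ≤ M then G (Nat.sqrt (t + 3) - 1) U else 0

open Classical in
lemma sq_sum (G : ℕ → Finset ℕ → ℝ) (M : ℕ) (X : ℕ → ℝ) (ω : Ω) :
    ∑ t ∈ Finset.range (M ^ 2), sqw G M t (St A t ω) * X (t + 1) =
      ∑ T ∈ Finset.Ico 2 M, G T (St A ((T + 1) ^ 2 - 3) ω) * X ((T + 1) ^ 2 - 2) := by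
  have h1 : ∑ t ∈ Finset.range (M ^ 2), sqw G M t (St A t ω) * X (t + 1) =
      ∑ t ∈ (Finset.range (M ^ 2)).filter (fun t => Nat.sqrt (t + 3) ^ 2 = t + 3 ∧ 3 ≤ Nat.sqrt (t + 3) ∧ Nat.sqrt (t + 3) ≤ M),
        G (Nat.sqrt (t + 3) - 1) (St A t ω) * X (t + 1) := by
    rw [Finset.sum_filter]
    refine Finset.sum_congr rfl fun t _ => ?_
    unfold sqw
    split_ifs <;> simp
  rw [h1]
  refine Finset.sum_nbij' (fun t => Nat.sqrt (t + 3) - 1) (fun T => (T + 1) ^ 2 - 3) ?_ ?_ ?_ ?_ ?_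
  · intro t ht
    rw [Finset.mem_filter] at ht
    rw [Finset.mem_Ico]
    omega
  · intro T hT
    rw [Finset.mem_Ico] at hT
    have h2 : 9 ≤ (T + 1) ^ 2 := by nlinarith
    have h3 : (T + 1) ^ 2 - 3 + 3 = (T + 1) ^ 2 := by omega
    rw [Finset.mem_filter, Finset.mem_range, h3, Nat.sqrt_eq']
    have h4 : (T + 1) ^ 2 ≤ M ^ 2 := Nat.pow_le_pow_left (by omega) 2
    refine ⟨by omega, rfl, by omega, by omega⟩
  · intro t ht
    rw [Finset.mem_filter] at ht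
    show (Nat.sqrt (t + 3) - 1 + 1) ^ 2 - 3 = t
    rw [Nat.sub_add_cancel (by omega), ht.2.1]
    omega
  · intro T hT
    rw [Finset.mem_Ico] at hT
    have h2 : 9 ≤ (T + 1) ^ 2 := by nlinarith
    have h3 : (T + 1) ^ 2 - 3 + 3 = (T + 1) ^ 2 := by omega
    show Nat.sqrt ((T + 1) ^ 2 - 3 + 3) - 1 = T
    rw [h3, Nat.sqrt_eq']
    omega
  · intro t ht
    rw [Finset.mem_filter] at ht
    have h2 : (Nat.sqrt (t + 3) - 1 + 1) ^ 2 = t + 3 := by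
      rw [Nat.sub_add_cancel (by omega)]; exact ht.2.1
    simp only [h2]
    rw [show t + 3 - 3 = t by omega, show t + 3 - 2 = t + 1 by omega]

/-- **law for squares** -/
theorem sq_law (hA : ∀ n, MeasurableSet[ℱ n] (A n)) (ρ : ℕ → ℝ) (hρ : ∀ n, 0 ≤ ρ n)
    (hd : ∀ᵐ ω ∂μ, ∀ ε > 0, ∀ᶠ T : ℕ in atTop, |dens μ ℱ A T ω - ρ (T + 1)| ≤ ε * ρ (T + 1))
    (G : ℕ → ℕ → Finset ℕ → ℝ) (hG : ∀ n T U, 0 ≤ G n T U ∧ G n T U ≤ 1) (M : ℕ → ℕ) :
    ∀ᵐ ω ∂μ, ∀ ε > 0, ∃ C : ℝ, ∀ᶠ n : ℕ in atTop,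
      ∑ T ∈ Finset.Ico 2 (M n), G n T (St A ((T + 1) ^ 2 - 3) ω) ≤ n →
      |∑ T ∈ Finset.Ico 2 (M n), G n T (St A ((T + 1) ^ 2 - 3) ω) * In A ((T + 1) ^ 2 - 2) ω -
        ∑ T ∈ Finset.Ico 2 (M n), G n T (St A ((T + 1) ^ 2 - 3) ω) * ρ ((T + 1) ^ 2 - 2)| ≤
      ε * ∑ T ∈ Finset.Ico 2 (M n), G n T (St A ((T + 1) ^ 2 - 3) ω) * ρ ((T + 1) ^ 2 - 2) +
        C + 2 * √(((n : ℝ) + 1) * Real.log n) := by
  have h0 := lawL (μ := μ) hA ρ hρ hd (fun n t U => sqw (G n) (M n) t U)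
    (fun n t U => by
      unfold sqw
      split_ifs
      · exact hG _ _ _
      · exact ⟨le_rfl, zero_le_one⟩) (fun n => M n ^ 2) (fun n => (n : ℝ)) (fun n => Nat.cast_nonneg _)
  filter_upwards [h0] with ω h1
  intro ε hε
  obtain ⟨C, hC⟩ := h1 ε hε
  refine ⟨C, ?_⟩
  filter_upwards [hC] with n hn hV
  have e1 := sq_sum (A := A) (G n) (M n) (fun m => (A m).indicator (fun _ => (1 : ℝ)) ω) ω
  have e2 := sq_sum (A := A) (G n) (M n) ρ ω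
  have e3 := sq_sum (A := A) (G n) (M n) (fun _ => 1) ω
  simp only [mul_one] at e3
  have h2 : Vg A (fun t U => sqw (G n) (M n) t U) (M n ^ 2) ω ≤ n := by
    refine le_trans (le_of_eq ?_) (e3.le.trans hV)
    unfold Vg
    have h0 : ∀ t U, 0 ≤ sqw (G n) (M n) t U := by
      intro t U
      unfold sqw
      split_ifs
      · exact (hG _ _ _).1
      · exact le_rfl
    exact Finset.sum_congr rfl fun t _ => abs_of_nonneg (h0 _ _)
  have h3 := hn h2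
  rw [e1, e2] at h3
  exact h3

end Pool.Agent.U310.Idx
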