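import Mathlib
import Pool.Agent.U310.Idx.Asy
import Pool.Agent.U310.Idx.SQ

set_option autoImplicit false
set_option linter.unusedSectionVars false

/-! # The number of `k ≤ n` with `2 k + 1` chosen -/

open MeasureTheory Filter Set
open scoped ENNReal Topology

namespace Pool.Agent.U310.Idx

open Pool.Agent.R528.RM

variable {Ω : Type} {m0 : MeasurableSpace Ω} {μ : Measure Ω} [IsProbabilityMeasure μ]
  {ℱ : Filtration ℕ m0} {A : ℕ → Set Ω}

open Classical in
/-- the `k ≤ n` with `2 k + 1` chosen -/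
noncomputable def KK (A : ℕ → Set Ω) (ω : Ω) (n : ℕ) : Finset ℕ := (Finset.Icc 1 n).filter (fun k => ω ∈ A (2 * k + 1))

/-- the number of classes `x` modulo `P` with `2 x + 1` prime to `P` -/
def c1 (P : ℕ) : ℕ := ((Finset.range P).filter (fun x => Nat.Coprime (2 * x + 1) P)).card

lemma c1_pos {P : ℕ} (hP : 0 < P) : 0 < c1 P := by
  unfold c1
  rw [Finset.card_pos]
  exact ⟨0, by rw [Finset.mem_filter, Finset.mem_range]; exact ⟨hP, by simp⟩⟩

/-- the `k ≤ n` with `2 k + 1` prime to `P` -/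
def ss (P n : ℕ) : Finset ℕ := (Finset.Icc 1 n).filter (fun k => Nat.Coprime (2 * k + 1) P)

lemma ss_count {P : ℕ} (n : ℕ) : (ss P n).card + 1 = Nat.count (fun x => Nat.Coprime (2 * x + 1) P) (n + 1) := by
  rw [Nat.count_eq_card_filter_range]
  have : (Finset.range (n + 1)).filter (fun x => Nat.Coprime (2 * x + 1) P) = insert 0 (ss P n) := by
    ext x
    rw [Finset.mem_filter, Finset.mem_range, Finset.mem_insert]
    unfold ss
    rw [Finset.mem_filter, Finset.mem_Icc]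
    constructor
    · rintro ⟨h1, h2⟩
      rcases Nat.eq_zero_or_pos x with h | h
      · exact Or.inl h
      · exact Or.inr ⟨⟨h, by omega⟩, h2⟩
    · rintro (rfl | ⟨⟨h1, h2⟩, h3⟩)
      · exact ⟨by omega, by simp⟩
      · exact ⟨by omega, h3⟩
  rw [this, Finset.card_insert_of_notMem]
  unfold ss
  simp

lemma ss_dens {P : ℕ} (hP : 0 < P) : Tendsto (fun n : ℕ => ((ss P n).card : ℝ) / n) atTop (𝓝 ((c1 P : ℝ) / P)) := by
  have hP' : (0 : ℝ) < P := by exact_mod_cast hP
  have hper : Function.Periodic (fun x => Nat.Coprime (2 * x + 1) P) P := by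
    intro x
    simp only [eq_iff_iff]
    rw [show 2 * (x + P) + 1 = 2 * x + 1 + P * 2 by ring]
    exact Nat.coprime_add_mul_left_left _ _ _
  have hc : Nat.count (fun x => Nat.Coprime (2 * x + 1) P) P = c1 P := by
    rw [Nat.count_eq_card_filter_range]; rfl
  have h1 : ∀ n : ℕ, |((ss P n).card : ℝ) - (c1 P / P) * n| ≤ P + 2 := by
    intro n
    have h2 := count_periodic _ P hP hper (n + 1)
    rw [hc] at h2
    have h3 := ss_count (P := P) n
    have h4 : ((ss P n).card : ℝ) + 1 = (Nat.count (fun x => Nat.Coprime (2 * x + 1) P) (n + 1) : ℝ) := by exact_mod_cast h3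
    rw [← h4] at h2
    push_cast at h2
    have h5 : (c1 P : ℝ) / P ≤ 1 := by
      rw [div_le_one hP', ← hc]
      exact_mod_cast Nat.count_le _
    have h6 : 0 ≤ (c1 P : ℝ) / P := by positivity
    rw [abs_le] at h2 ⊢
    constructor
    · linarith [h2.1]
    · linarith [h2.2]
  refine ratio_tendsto _ _ (fun _ => 0) _ (fun ε hε => ⟨P + 2, Eventually.of_forall fun n => ?_⟩)
    tendsto_natCast_atTop_atTop (by simp)
  have := h1 n
  have h2 : 0 ≤ ε * n := by positivity
  linarith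

lemma U1 : ∀ᶠ n : ℕ in atTop, (n : ℝ) ^ 1 / Real.log n ^ 4 ≤ ((2 * n + 1 : ℕ) : ℝ) ∧ ((2 * n + 1 : ℕ) : ℝ) ≤ (n : ℝ) ^ 1 * Real.log n ^ 4 := by
  filter_upwards [hlogn.eventually_ge_atTop 2, eventually_ge_atTop 1] with n hn h1
  have hn1 : (1 : ℝ) ≤ n := by exact_mod_cast h1
  have h2 : (16 : ℝ) ≤ Real.log n ^ 4 := by
    calc (16 : ℝ) = 2 ^ 4 := by norm_num
      _ ≤ _ := pow_le_pow_left₀ (by norm_num) hn 4
  push_cast
  constructor
  · rw [div_le_iff₀ (by positivity)]
    nlinarith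
  · nlinarith

lemma D1 : ∀ᶠ n : ℕ in atTop, (n : ℝ) ^ 1 / Real.log n ^ 4 ≤ ((⌊(n : ℝ) / Real.log n ^ 3⌋₊ : ℕ) : ℝ) ∧
    ((⌊(n : ℝ) / Real.log n ^ 3⌋₊ : ℕ) : ℝ) ≤ (n : ℝ) ^ 1 * Real.log n ^ 4 := by
  filter_upwards [hlogn.eventually_ge_atTop 2, ev_pow 4] with n hn h1
  have hL : 0 < Real.log n := by linarith
  have h2 : (n : ℝ) / Real.log n ^ 3 < (⌊(n : ℝ) / Real.log n ^ 3⌋₊ : ℝ) + 1 := Nat.lt_floor_add_one _
  have h3 : (⌊(n : ℝ) / Real.log n ^ 3⌋₊ : ℝ) ≤ (n : ℝ) / Real.log n ^ 3 := Nat.floor_le (by positivity)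
  have h4 : 1 ≤ (n : ℝ) / Real.log n ^ 4 := by rw [one_le_div (by positivity)]; exact h1
  have h5 : (n : ℝ) / Real.log n ^ 3 = Real.log n * ((n : ℝ) / Real.log n ^ 4) := by field_simp
  have hL4 : 1 ≤ Real.log n ^ 4 := one_le_pow₀ (by linarith)
  have hL3 : 1 ≤ Real.log n ^ 3 := one_le_pow₀ (by linarith)
  constructor
  · rw [pow_one]
    nlinarith
  · rw [pow_one]
    refine h3.trans ?_
    calc (n : ℝ) / Real.log n ^ 3 ≤ n := div_le_self (Nat.cast_nonneg _) hL3
      _ ≤ _ := le_mul_of_one_le_right (Nat.cast_nonneg _) hL4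

lemma small_ratio {x : ℕ → ℝ} {c : ℝ} (hc : 0 < c) (hx : Tendsto (fun n : ℕ => x n * Real.log n / n) atTop (𝓝 c)) :
    Tendsto (fun n : ℕ => (n : ℝ) / (Real.log n ^ 2 * x n)) atTop (𝓝 0) := by
  have h1 : Tendsto (fun n : ℕ => (1 / Real.log n) * (x n * Real.log n / n)⁻¹) atTop (𝓝 (0 * c⁻¹)) :=
    (tendsto_const_nhds.div_atTop hlogn).mul (hx.inv₀ hc.ne')
  rw [zero_mul] at h1
  refine h1.congr' ?_
  filter_upwards [hlogn.eventually_gt_atTop 0, eventually_ge_atTop 1] with n hL hn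
  have : (0 : ℝ) < n := by exact_mod_cast hn
  by_cases h0 : x n = 0
  · simp [h0]
  · field_simp

/-- the expected number -/
lemma R1_asymp {P : ℕ} (hP : 0 < P) :
    Tendsto (fun n : ℕ => (∑ k ∈ Finset.Icc 1 n, rho P (2 * k + 1)) * Real.log n / n) atTop
      (𝓝 (kap P * (c1 P / P))) := by
  have hP' : (0 : ℝ) < P := by exact_mod_cast hP
  have hc : 0 < (c1 P : ℝ) / P := by have := c1_pos hP; positivity
  have hd := ss_dens hP
  have hcard : Tendsto (fun n : ℕ => ((ss P n).card : ℝ)) atTop atTop := by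
    have : Tendsto (fun n : ℕ => ((ss P n).card : ℝ) / n * n) atTop atTop :=
      Tendsto.pos_mul_atTop hc hd tendsto_natCast_atTop_atTop
    refine this.congr' ?_
    filter_upwards [eventually_ge_atTop 1] with n hn
    have : (0 : ℝ) < n := by exact_mod_cast hn
    field_simp
  have h3 : Tendsto (fun n : ℕ => (n : ℝ) / (Real.log n ^ 2 * (ss P n).card)) atTop (𝓝 0) := by
    have h1 : Tendsto (fun n : ℕ => (1 / Real.log n ^ 2) * (((ss P n).card : ℝ) / n)⁻¹) atTop (𝓝 (0 * ((c1 P : ℝ) / P)⁻¹)) :=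
      (tendsto_const_nhds.div_atTop ((tendsto_pow_atTop (by norm_num)).comp hlogn)).mul (hd.inv₀ hc.ne')
    rw [zero_mul] at h1
    refine h1.congr' ?_
    filter_upwards [hlogn.eventually_gt_atTop 0, eventually_ge_atTop 1, hcard.eventually_gt_atTop 0] with n hL hn h0
    have : (0 : ℝ) < n := by exact_mod_cast hn
    field_simp
  have h1 := slow_sum (ss P) (fun _ k => 2 * k + 1) (fun n => 2 * n + 1) (fun n => ⌊(n : ℝ) / Real.log n ^ 3⌋₊) 1 zero_le_one
    (Eventually.of_forall fun n => Finset.filter_subset _ _)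
    (by filter_upwards [hcard.eventually_gt_atTop 0] with n hn; exact_mod_cast hn)
    (Eventually.of_forall fun n k hk => by
      unfold ss at hk
      rw [Finset.mem_filter, Finset.mem_Icc] at hk
      show 2 * k + 1 ≤ 2 * n + 1
      omega)
    (Eventually.of_forall fun n k hk hk2 => by
      show ⌊(n : ℝ) / Real.log n ^ 3⌋₊ ≤ 2 * k + 1
      have : ⌊(n : ℝ) / Real.log n ^ 3⌋₊ ≤ k := Nat.floor_le_of_le hk2.le
      omega)
    (by simpa using lf_ratio (a := 1) one_pos U1) (by simpa using lf_ratio (a := 1) one_pos D1) h3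
  have h2 : Tendsto (fun n : ℕ => kap P * (((∑ k ∈ ss P n, lf (2 * k + 1)) * (1 * Real.log n) / (ss P n).card) *
      (((ss P n).card : ℝ) / n))) atTop (𝓝 (kap P * (1 * (c1 P / P)))) := (h1.mul hd).const_mul _
  rw [one_mul] at h2
  refine h2.congr' ?_
  filter_upwards [eventually_ge_atTop 1, hcard.eventually_gt_atTop 0] with n hn h0
  have : (0 : ℝ) < n := by exact_mod_cast hn
  have e1 : ∑ k ∈ Finset.Icc 1 n, rho P (2 * k + 1) = kap P * ∑ k ∈ ss P n, lf (2 * k + 1) := by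
    unfold ss
    rw [Finset.mul_sum, Finset.sum_filter]
    refine Finset.sum_congr rfl fun k _ => ?_
    unfold rho
    rfl
  rw [e1]
  field_simp

open Classical in
lemma sum_odd (X : ℕ → ℝ) (n : ℕ) :
    ∑ T ∈ Finset.range (2 * n + 1), (if T % 2 = 0 ∧ 2 ≤ T then (1 : ℝ) else 0) * X (T + 1) =
      ∑ k ∈ Finset.Icc 1 n, X (2 * k + 1) := by
  have h1 : ∑ T ∈ Finset.range (2 * n + 1), (if T % 2 = 0 ∧ 2 ≤ T then (1 : ℝ) else 0) * X (T + 1) =
      ∑ T ∈ (Finset.range (2 * n + 1)).filter (fun T => T % 2 = 0 ∧ 2 ≤ T), X (T + 1) := by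
    rw [Finset.sum_filter]
    refine Finset.sum_congr rfl fun T _ => ?_
    split_ifs <;> simp
  rw [h1]
  refine Finset.sum_nbij' (fun T => T / 2) (fun k => 2 * k) ?_ ?_ ?_ ?_ ?_
  · intro T hT
    rw [Finset.mem_filter, Finset.mem_range] at hT
    rw [Finset.mem_Icc]; omega
  · intro k hk
    rw [Finset.mem_Icc] at hk
    rw [Finset.mem_filter, Finset.mem_range]; omega
  · intro T hT
    rw [Finset.mem_filter, Finset.mem_range] at hT
    show 2 * (T / 2) = T
    omega
  · intro k _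
    show 2 * k / 2 = k
    omega
  · intro T hT
    rw [Finset.mem_filter, Finset.mem_range] at hT
    show X (T + 1) = X (2 * (T / 2) + 1)
    rw [show 2 * (T / 2) = T by omega]

/-- the number of the `k ≤ n` with `2 k + 1` chosen -/
theorem KK_law (hA : ∀ n, MeasurableSet[ℱ n] (A n)) {P : ℕ} (hP : 0 < P)
    (hd : ∀ᵐ ω ∂μ, ∀ ε > 0, ∀ᶠ T : ℕ in atTop, |dens μ ℱ A T ω - rho P (T + 1)| ≤ ε * rho P (T + 1)) :
    ∀ᵐ ω ∂μ, Tendsto (fun n : ℕ => ((KK A ω n).card : ℝ) * Real.log n / n) atTop (𝓝 (kap P * (c1 P / P))) := by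
  classical
  have hP' : (0 : ℝ) < P := by exact_mod_cast hP
  have hc : 0 < kap P * ((c1 P : ℝ) / P) := by have := c1_pos hP; have := kap_pos hP; positivity
  have h0 := lawL (μ := μ) hA (rho P) (rho_nonneg hP) hd
    (fun n T _ => if T % 2 = 0 ∧ 2 ≤ T then 1 else 0) (fun n T U => by split_ifs <;> norm_num)
    (fun n => 2 * n + 1) (fun n => (n : ℝ)) (fun n => Nat.cast_nonneg _)
  filter_upwards [h0] with ω h1
  have hR := R1_asymp hP
  have hRinf : Tendsto (fun n : ℕ => ∑ k ∈ Finset.Icc 1 n, rho P (2 * k + 1)) atTop atTop := by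
    have h2 : Tendsto (fun n : ℕ => (n : ℝ) / Real.log n) atTop atTop := by
      have h3 : Tendsto (fun n : ℕ => (Real.log n ^ 1 / √(n : ℝ))) atTop (𝓝 0) := polylog0 1
      have h4 : ∀ᶠ n : ℕ in atTop, √(n : ℝ) ≤ (n : ℝ) / Real.log n := by
        filter_upwards [h3.eventually (gt_mem_nhds (show (0 : ℝ) < 1 by norm_num)), eventually_ge_atTop 1,
          hlogn.eventually_gt_atTop 0] with n e1 e2 e3
        have hn : (0 : ℝ) < n := by exact_mod_cast e2
        have hs : 0 < √(n : ℝ) := Real.sqrt_pos.2 hn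
        rw [pow_one, div_lt_one hs] at e1
        rw [le_div_iff₀ e3]
        calc √(n : ℝ) * Real.log n ≤ √(n : ℝ) * √(n : ℝ) := by gcongr
          _ = n := Real.mul_self_sqrt hn.le
      exact tendsto_atTop_mono' _ h4 (Real.tendsto_sqrt_atTop.comp tendsto_natCast_atTop_atTop)
    have h5 : Tendsto (fun n : ℕ => ((∑ k ∈ Finset.Icc 1 n, rho P (2 * k + 1)) * Real.log n / n) * ((n : ℝ) / Real.log n)) atTop atTop :=
      Tendsto.pos_mul_atTop hc hR h2
    refine h5.congr' ?_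
    filter_upwards [eventually_ge_atTop 1, hlogn.eventually_gt_atTop 0] with n e2 e3
    have hn : (0 : ℝ) < n := by exact_mod_cast e2
    field_simp
  have hratio : Tendsto (fun n : ℕ => ((KK A ω n).card : ℝ) / ∑ k ∈ Finset.Icc 1 n, rho P (2 * k + 1)) atTop (𝓝 1) := by
    refine ratio_tendsto _ _ (fun n : ℕ => 2 * √(((n : ℝ) + 1) * Real.log n)) 1 (fun ε hε => ?_) hRinf ?_
    · obtain ⟨C, hC⟩ := h1 ε hε
      refine ⟨C, ?_⟩
      filter_upwards [hC] with n hn
      have e1 := sum_odd (fun m => (A m).indicator (fun _ => (1 : ℝ)) ω) n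
      have e2 := sum_odd (rho P) n
      have e3 := sum_odd (fun _ => 1) n
      have hV : Vg A (fun T (_ : Finset ℕ) => if T % 2 = 0 ∧ 2 ≤ T then (1 : ℝ) else 0) (2 * n + 1) ω ≤ n := by
        unfold Vg
        have : ∑ k ∈ Finset.Icc 1 n, (1 : ℝ) = n := by simp
        rw [← this, ← e3]
        refine Finset.sum_le_sum fun T _ => ?_
        show |(if T % 2 = 0 ∧ 2 ≤ T then (1 : ℝ) else 0)| ≤ (if T % 2 = 0 ∧ 2 ≤ T then (1 : ℝ) else 0) * 1
        split_ifs <;> simp
      have e4 := hn hV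
      rw [e1, e2] at e4
      have e5 : ∑ k ∈ Finset.Icc 1 n, (A (2 * k + 1)).indicator (fun _ => (1 : ℝ)) ω = ((KK A ω n).card : ℝ) := by
        unfold KK
        rw [Finset.card_eq_sum_ones, Finset.sum_filter]
        push_cast
        refine Finset.sum_congr rfl fun k _ => ?_
        unfold indicator
        rfl
      rw [e5] at e4
      rw [one_mul]
      exact e4
    · have h3 : Tendsto (fun n : ℕ => (4 * (Real.log n ^ 2 / √(n : ℝ))) *
          ((∑ k ∈ Finset.Icc 1 n, rho P (2 * k + 1)) * Real.log n / n)⁻¹) atTop (𝓝 (4 * 0 * (kap P * ((c1 P : ℝ) / P))⁻¹)) :=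
        ((polylog0 2).const_mul 4).mul (hR.inv₀ hc.ne')
      rw [mul_zero, zero_mul] at h3
      refine squeeze_zero' ?_ ?_ h3
      · filter_upwards [hRinf.eventually_gt_atTop 0] with n hn
        positivity
      · filter_upwards [hRinf.eventually_gt_atTop 0, eventually_ge_atTop 1, hlogn.eventually_ge_atTop 1] with n e1 e2 e3
        have hn : (1 : ℝ) ≤ n := by exact_mod_cast e2
        have hs : 0 < √(n : ℝ) := Real.sqrt_pos.2 (by linarith)
        have e4 : √(((n : ℝ) + 1) * Real.log n) ≤ 2 * (√(n : ℝ) * Real.log n) := by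
          rw [← Real.sqrt_sq (show (0 : ℝ) ≤ 2 * (√(n : ℝ) * Real.log n) by positivity)]
          apply Real.sqrt_le_sqrt
          rw [mul_pow, mul_pow, Real.sq_sqrt (by linarith)]
          calc ((n : ℝ) + 1) * Real.log n ≤ (2 * n) * Real.log n := by gcongr; linarith
            _ ≤ (2 * n) * Real.log n ^ 2 := by gcongr; nlinarith
            _ ≤ _ := by nlinarith [pow_pos (by linarith : (0 : ℝ) < Real.log n) 2]
        rw [div_le_iff₀ e1]
        have e5 : 4 * (Real.log n ^ 2 / √(n : ℝ)) * ((∑ k ∈ Finset.Icc 1 n, rho P (2 * k + 1)) * Real.log n / n)⁻¹ *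
            (∑ k ∈ Finset.Icc 1 n, rho P (2 * k + 1)) = 4 * (√(n : ℝ) * Real.log n) := by
          have e6 : (n : ℝ) = √(n : ℝ) * √(n : ℝ) := (Real.mul_self_sqrt (by linarith)).symm
          set R := ∑ k ∈ Finset.Icc 1 n, rho P (2 * k + 1)
          have e7 : R ≠ 0 := e1.ne'
          have e8 : Real.log n ≠ 0 := by linarith
          rw [inv_div]
          field_simp
          rw [sq, ← e6]
        rw [e5]
        linarith
  have h6 := hratio.mul hR
  rw [one_mul] at h6
  refine h6.congr' ?_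
  filter_upwards [hRinf.eventually_gt_atTop 0, eventually_ge_atTop 1] with n e1 e2
  have hn : (0 : ℝ) < n := by exact_mod_cast e2
  field_simp

end Pool.Agent.U310.Idx
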