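import Mathlib
import Pool.Agent.U310.Idx.KL

set_option autoImplicit false
set_option linter.unusedSectionVars false

/-! # The numbers `p_{kn}^2 - 2` -/

open MeasureTheory Filter Set
open scoped ENNReal Topology

namespace Pool.Agent.U310.Idx

open Pool.Agent.R528.RM

variable {Ω : Type} {m0 : MeasurableSpace Ω} {μ : Measure Ω} [IsProbabilityMeasure μ]
  {ℱ : Filtration ℕ m0} {A : ℕ → Set Ω}

/-- the next index is `k n` with `k ≤ n` and `2 k + 1` chosen -/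
def gI (n : ℕ) (U : Finset ℕ) : Prop := n ∣ U.card + 1 ∧ U.card + 1 ≤ n ^ 2 ∧ 2 * ((U.card + 1) / n) + 1 ∈ U

/-- the range -/
def Mi (n : ℕ) : ℕ := n ^ 2 * (Nat.log 2 n) ^ 8

lemma log2_bounds : ∀ᶠ n : ℕ in atTop, Real.log n ≤ (Nat.log 2 n : ℝ) ∧ (Nat.log 2 n : ℝ) ≤ 2 * Real.log n := by
  filter_upwards [hlogn.eventually_ge_atTop 4, eventually_ge_atTop 1] with n hL hn
  have hn0 : (0 : ℝ) < n := by exact_mod_cast hn
  have h2 := Real.log_two_gt_d9
  have h2' := Real.log_two_lt_d9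
  have h3 : n < 2 ^ (Nat.log 2 n + 1) := Nat.lt_pow_succ_log_self (by norm_num) n
  have h4 : 2 ^ Nat.log 2 n ≤ n := Nat.pow_log_le_self 2 (by omega)
  have h5 : Real.log n ≤ (Nat.log 2 n + 1) * Real.log 2 := by
    have : (n : ℝ) ≤ 2 ^ (Nat.log 2 n + 1) := by exact_mod_cast h3.le
    have := Real.log_le_log hn0 this
    rw [Real.log_pow] at this
    push_cast at this
    exact this
  have h6 : (Nat.log 2 n : ℝ) * Real.log 2 ≤ Real.log n := by
    have : (2 : ℝ) ^ (Nat.log 2 n) ≤ n := by exact_mod_cast h4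
    have := Real.log_le_log (by positivity) this
    rw [Real.log_pow] at this
    exact this
  have h7 : (0 : ℝ) ≤ Nat.log 2 n := Nat.cast_nonneg _
  constructor
  · nlinarith
  · nlinarith

lemma Mi_bounds : ∀ᶠ n : ℕ in atTop, (n : ℝ) ^ 2 * Real.log n ^ 8 ≤ Mi n ∧ (Mi n : ℝ) ≤ (n : ℝ) ^ 2 * (2 * Real.log n) ^ 8 := by
  filter_upwards [log2_bounds, hlogn.eventually_gt_atTop 0] with n hn hL
  unfold Mi
  push_cast
  constructor
  · exact mul_le_mul_of_nonneg_left (pow_le_pow_left₀ hL.le hn.1 8) (by positivity)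
  · exact mul_le_mul_of_nonneg_left (pow_le_pow_left₀ (Nat.cast_nonneg _) hn.2 8) (by positivity)

lemma Mi_le : ∀ᶠ n : ℕ in atTop, Mi n ≤ n ^ 3 := by
  filter_upwards [Mi_bounds, ev_pow 9, hlogn.eventually_ge_atTop 256] with n hn h9 hL
  have h1 : (2 * Real.log n) ^ 8 ≤ Real.log n ^ 9 := by
    rw [mul_pow]
    have : (0 : ℝ) < Real.log n := by linarith
    calc (2 : ℝ) ^ 8 * Real.log n ^ 8 ≤ Real.log n * Real.log n ^ 8 := by
          apply mul_le_mul_of_nonneg_right _ (by positivity)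
          norm_num
          linarith
      _ = _ := by ring
  have h2 : (Mi n : ℝ) ≤ ((n ^ 3 : ℕ) : ℝ) := by
    push_cast
    calc (Mi n : ℝ) ≤ (n : ℝ) ^ 2 * (2 * Real.log n) ^ 8 := hn.2
      _ ≤ (n : ℝ) ^ 2 * n := by gcongr; exact h1.trans h9
      _ = _ := by ring
  exact_mod_cast h2

/-- there are at least `n ^ 2` chosen integers up to `Mi n` -/
lemma card_Mi {ω : Ω} (h : ∀ᶠ x : ℕ in atTop, ∃ t, x ≤ t ∧ t < x + Hn x ∧ ω ∈ A (t + 1)) :
    ∀ᶠ n : ℕ in atTop, n ^ 2 ≤ (St A (Mi n) ω).card := by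
  obtain ⟨T0, hT0⟩ := eventually_atTop.1 h
  filter_upwards [Mi_bounds, Mi_le, hlogn.eventually_ge_atTop (T0 + 2 * 729 + 1), eventually_ge_atTop 1] with n h1 h2 hL hn
  have hn1 : (1 : ℝ) ≤ n := by exact_mod_cast hn
  set L := Real.log n with hLd
  have hT00 : (0 : ℝ) ≤ T0 := Nat.cast_nonneg _
  have hL1 : 1 ≤ L := by linarith
  by_contra hc
  push_neg at hc
  have h3 := card_lower (A := A) (ω := ω) (T0 := T0) (H := ⌊(3 : ℝ) ^ 6 * L ^ 6⌋₊) (M := Mi n) (fun T hT hTM => by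
    obtain ⟨t, ht1, ht2, ht3⟩ := hT0 T hT
    refine ⟨t, ht1, lt_of_lt_of_le ht2 ?_, ht3⟩
    have : Hn T ≤ ⌊(3 : ℝ) ^ 6 * L ^ 6⌋₊ := by
      unfold Hn
      apply Nat.floor_le_floor
      rw [← mul_pow]
      rcases Nat.eq_zero_or_pos T with h0 | h0
      · rw [h0]; simp; positivity
      have c1 : Real.log T ≤ 3 * L := by
        have : Real.log T ≤ Real.log ((n : ℝ) ^ 3) := by
          apply Real.log_le_log (by exact_mod_cast h0)
          have : T ≤ n ^ 3 := by omega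
          exact_mod_cast this
        rw [Real.log_pow] at this
        exact_mod_cast this
      exact pow_le_pow_left₀ (Real.log_nonneg (by exact_mod_cast h0)) c1 6
    omega)
  have h4 : (⌊(3 : ℝ) ^ 6 * L ^ 6⌋₊ : ℝ) ≤ 3 ^ 6 * L ^ 6 := Nat.floor_le (by positivity)
  have h5 : ((St A (Mi n) ω).card : ℝ) ≤ (n : ℝ) ^ 2 := by exact_mod_cast hc.le
  have hn2 : (1 : ℝ) ≤ (n : ℝ) ^ 2 := one_le_pow₀ hn1
  have h6 : (Mi n : ℝ) ≤ (T0 + 2 * (729 * L ^ 6)) * (n : ℝ) ^ 2 := by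
    have a1 : (⌊(3 : ℝ) ^ 6 * L ^ 6⌋₊ : ℝ) * ((St A (Mi n) ω).card : ℝ) ≤ (3 ^ 6 * L ^ 6) * (n : ℝ) ^ 2 :=
      mul_le_mul h4 h5 (Nat.cast_nonneg _) (by positivity)
    have a2 : (T0 : ℝ) ≤ T0 * (n : ℝ) ^ 2 := le_mul_of_one_le_right hT00 hn2
    have a3 : (3 : ℝ) ^ 6 * L ^ 6 ≤ (3 ^ 6 * L ^ 6) * (n : ℝ) ^ 2 := le_mul_of_one_le_right (by positivity) hn2
    have a4 : (3 : ℝ) ^ 6 = 729 := by norm_num
    rw [a4] at a1 a3 h4 h3
    linarith
  have h7 : (n : ℝ) ^ 2 * L ^ 8 ≤ (T0 + 2 * (729 * L ^ 6)) * (n : ℝ) ^ 2 := h1.1.trans h6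
  have h8 : L ^ 8 ≤ T0 + 2 * (729 * L ^ 6) := by
    have : (0 : ℝ) < (n : ℝ) ^ 2 := by linarith
    nlinarith
  have h9 : (T0 : ℝ) + 2 * (729 * L ^ 6) < L ^ 8 := by
    have b1 : 1 ≤ L ^ 6 := one_le_pow₀ hL1
    calc (T0 : ℝ) + 2 * (729 * L ^ 6) ≤ (T0 + 2 * 729) * L ^ 6 := by nlinarith
      _ < L * L ^ 6 := by
          apply mul_lt_mul_of_pos_right _ (by positivity)
          linarith
      _ = L ^ 7 := by ring
      _ ≤ L ^ 8 := pow_le_pow_right₀ hL1 (by norm_num)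
  linarith

open Classical in
/-- sums over the elements of index `k n` -/
lemma sum_kn {ω : Ω} (hinf : (setOf (sp A ω)).Infinite) {n : ℕ} (hn : 4 ≤ n) (hM : n ^ 2 ≤ (St A (Mi n) ω).card) (X : ℕ → ℝ) :
    ∑ T ∈ Finset.range (Mi n), W A (gI n) T ω * X (T + 1) * In A (T + 1) ω = ∑ k ∈ KK A ω n, X (pe A ω (k * n)) := by
  rw [sum_index hinf (fun T => W A (gI n) T ω * X (T + 1))]
  have h1 : ∀ j ∈ Finset.Icc 1 (St A (Mi n) ω).card, W A (gI n) (pe A ω j - 1) ω * X (pe A ω j - 1 + 1) =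
      if (n ∣ j ∧ j ≤ n ^ 2 ∧ ω ∈ A (2 * (j / n) + 1)) then X (pe A ω j) else 0 := by
    intro j hj
    rw [Finset.mem_Icc] at hj
    have h2 := card_St_pe hinf hj.1
    have h3 : pe A ω j - 1 + 1 = pe A ω j := Nat.sub_add_cancel (pe_pos hinf j)
    have h4 : gI n (St A (pe A ω j - 1) ω) ↔ (n ∣ j ∧ j ≤ n ^ 2 ∧ ω ∈ A (2 * (j / n) + 1)) := by
      unfold gI
      rw [h2, mem_St]
      constructor
      · rintro ⟨a1, a2, a3⟩; exact ⟨a1, a2, a3.2⟩
      · rintro ⟨a1, a2, a3⟩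
        refine ⟨a1, a2, ⟨by omega, ?_⟩, a3⟩
        obtain ⟨k, rfl⟩ := a1
        have a4 : 1 ≤ k := by
          rcases Nat.eq_zero_or_pos k with h | h
          · rw [h] at hj; omega
          · exact h
        rw [Nat.mul_div_cancel_left _ (by omega)]
        have a5 := pe_ge hinf hj.1
        have a6 : 4 * k ≤ n * k := Nat.mul_le_mul_right k hn
        omega
    rw [h3]
    unfold W
    by_cases hc : gI n (St A (pe A ω j - 1) ω)
    · rw [if_pos hc, if_pos (h4.1 hc), one_mul]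
    · rw [if_neg hc, if_neg (fun h => hc (h4.2 h)), zero_mul]
  rw [Finset.sum_congr rfl h1, ← Finset.sum_filter]
  refine Finset.sum_nbij' (fun j => j / n) (fun k => k * n) ?_ ?_ ?_ ?_ ?_
  · intro j hj
    rw [Finset.mem_filter, Finset.mem_Icc] at hj
    unfold KK
    rw [Finset.mem_filter, Finset.mem_Icc]
    obtain ⟨⟨a1, a2⟩, ⟨k, rfl⟩, a4, a5⟩ := hj
    rw [Nat.mul_div_cancel_left _ (by omega)] at a5 ⊢
    refine ⟨⟨?_, ?_⟩, a5⟩
    · rcases Nat.eq_zero_or_pos k with h | h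
      · rw [h] at a1; omega
      · exact h
    · have : n * k ≤ n * n := by rw [← sq]; exact a4
      exact Nat.le_of_mul_le_mul_left this (by omega)
  · intro k hk
    unfold KK at hk
    rw [Finset.mem_filter, Finset.mem_Icc] at hk
    rw [Finset.mem_filter, Finset.mem_Icc]
    have a1 : k * n ≤ n ^ 2 := by rw [sq]; exact Nat.mul_le_mul_right n hk.1.2
    have a2 : 1 ≤ k * n := Nat.mul_pos hk.1.1 (by omega)
    refine ⟨⟨a2, a1.trans hM⟩, Dvd.intro_left k rfl, a1, ?_⟩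
    rw [Nat.mul_div_cancel _ (by omega)]
    exact hk.2
  · intro j hj
    rw [Finset.mem_filter] at hj
    exact Nat.div_mul_cancel hj.2.1
  · intro k _
    exact Nat.mul_div_cancel k (by omega)
  · intro j hj
    rw [Finset.mem_filter] at hj
    show X (pe A ω j) = X (pe A ω (j / n * n))
    rw [Nat.div_mul_cancel hj.2.1]

/-- `m ^ 2 - 2` is prime to `P`, in terms of the class of `m` -/
def gd (P a : ℕ) : Prop := Nat.Coprime (a ^ 2 + 2 * (P - 1)) P

instance (P a : ℕ) : Decidable (gd P a) := by unfold gd; infer_instance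

lemma gd_iff {P m : ℕ} (hP : 0 < P) (hm : 2 ≤ m) : Nat.Coprime (m ^ 2 - 2) P ↔ gd P m := by
  unfold gd
  have h1 : 4 ≤ m ^ 2 := by nlinarith
  have h2 : m ^ 2 + 2 * (P - 1) = m ^ 2 - 2 + P * 2 := by omega
  rw [h2]
  exact (Nat.coprime_add_mul_left_left _ _ _).symm

lemma gd_mod {P m : ℕ} : gd P (m % P) ↔ gd P m := by
  unfold gd
  have h : ((m % P) ^ 2 + 2 * (P - 1)) % P = (m ^ 2 + 2 * (P - 1)) % P := by
    rw [Nat.add_mod, Nat.pow_mod, Nat.mod_mod, ← Nat.pow_mod, ← Nat.add_mod]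
  rw [← cop_mod (n := (m % P) ^ 2 + 2 * (P - 1)), h, cop_mod]

/-- the number of the classes `a` prime to `P` with `a ^ 2 - 2` prime to `P` -/
def c2 (P : ℕ) : ℕ := ((Cl P).filter (fun a => gd P a)).card

lemma c2_pos {P : ℕ} (hP : 0 < P) : 0 < c2 P := by
  unfold c2
  rw [Finset.card_pos]
  refine ⟨1 % P, ?_⟩
  rw [Finset.mem_filter]
  unfold Cl
  rw [Finset.mem_filter, Finset.mem_range, gd_mod, cop_mod]
  refine ⟨⟨Nat.mod_lt _ hP, by simp⟩, ?_⟩
  unfold gd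
  rw [show 1 ^ 2 + 2 * (P - 1) = 2 * P - 1 by omega]
  have h1 : Nat.Coprime (2 * P - 1) (2 * P) := by
    have := Nat.coprime_self_add_right (m := 2 * P - 1) (n := 1)
    rw [show 2 * P - 1 + 1 = 2 * P by omega] at this
    rw [this]
    simp
  exact Nat.Coprime.coprime_dvd_right (Dvd.intro_left 2 rfl) h1

end Pool.Agent.U310.Idx
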