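import Mathlib
import Pool.Agent.U310.Idx.P971

set_option autoImplicit false
set_option linter.unusedSectionVars false

/-! # The law for the numbers `k ≤ n` with `2 k + 1` and `p_{kn}^2 - 2` chosen -/

open MeasureTheory Filter Set
open scoped ENNReal Topology

namespace Pool.Agent.U310.Idx

open Pool.Agent.R528.RM

variable {Ω : Type} {m0 : MeasurableSpace Ω} {μ : Measure Ω} [IsProbabilityMeasure μ]
  {ℱ : Filtration ℕ m0} {A : ℕ → Set Ω}

/-- if `x n ~ c n / log^j n` then `x n → ∞` and `√n log^i n / x n → 0` -/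
lemma big_of {x : ℕ → ℝ} {c : ℝ} {j : ℕ} (hc : 0 < c) (hx : Tendsto (fun n : ℕ => x n * Real.log n ^ j / n) atTop (𝓝 c)) :
    Tendsto x atTop atTop ∧ ∀ i : ℕ, Tendsto (fun n : ℕ => √(n : ℝ) * Real.log n ^ i / x n) atTop (𝓝 0) := by
  have h1 : ∀ i : ℕ, Tendsto (fun n : ℕ => √(n : ℝ) * Real.log n ^ i / x n) atTop (𝓝 0) := by
    intro i
    have h2 : Tendsto (fun n : ℕ => (Real.log n ^ (i + j) / √(n : ℝ)) * (x n * Real.log n ^ j / n)⁻¹) atTop (𝓝 (0 * c⁻¹)) :=
      (polylog0 (i + j)).mul (hx.inv₀ hc.ne')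
    rw [zero_mul] at h2
    refine h2.congr' ?_
    filter_upwards [hlogn.eventually_gt_atTop 0, eventually_ge_atTop 1, hx.eventually (lt_mem_nhds hc)] with n hL hn h3
    have hn0 : (0 : ℝ) < n := by exact_mod_cast hn
    have hs : 0 < √(n : ℝ) := Real.sqrt_pos.2 hn0
    have h4 : x n ≠ 0 := by
      intro h; rw [h] at h3; simp at h3
    have h5 : (n : ℝ) = √(n : ℝ) * √(n : ℝ) := (Real.mul_self_sqrt hn0.le).symm
    rw [inv_div, pow_add]
    field_simp
    rw [sq, ← h5]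
  refine ⟨?_, h1⟩
  have h2 := h1 0
  simp only [pow_zero, mul_one] at h2
  have h3 : ∀ᶠ n : ℕ in atTop, √(n : ℝ) ≤ x n := by
    filter_upwards [h2.eventually (gt_mem_nhds (show (0 : ℝ) < 1 by norm_num)), hx.eventually (lt_mem_nhds hc),
      hlogn.eventually_gt_atTop 0, eventually_ge_atTop 1] with n e1 e2 e3 e4
    have hn0 : (0 : ℝ) < n := by exact_mod_cast e4
    have h4 : 0 < x n := by
      by_contra h
      push_neg at h
      have : x n * Real.log n ^ j / n ≤ 0 := div_nonpos_of_nonpos_of_nonneg (mul_nonpos_of_nonpos_of_nonneg h (by positivity)) hn0.le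
      linarith
    rw [div_lt_one h4] at e1
    exact e1.le
  exact tendsto_atTop_mono' _ h3 (Real.tendsto_sqrt_atTop.comp tendsto_natCast_atTop_atTop)

open Classical in
/-- the weight at the time of `m ^ 2 - 2`, `m = T + 1` -/
noncomputable def G9 (n T : ℕ) (U : Finset ℕ) : ℝ := if (T + 1 ∈ U ∧ gI n (U.filter (· ≤ T))) then 1 else 0

lemma G9_eq (n : ℕ) {T : ℕ} (hT : 2 ≤ T) (ω : Ω) :
    G9 n T (St A ((T + 1) ^ 2 - 3) ω) = W A (gI n) T ω * In A (T + 1) ω := by
  classical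
  have h1 : T + 1 ≤ (T + 1) ^ 2 - 3 := by
    have : (T + 1) ^ 2 = (T + 1) * (T + 1) := sq _
    have : 3 * (T + 1) ≤ (T + 1) * (T + 1) := Nat.mul_le_mul_right _ (by omega)
    omega
  unfold G9 W
  rw [St_filter (by omega)]
  by_cases h2 : ω ∈ A (T + 1)
  · rw [In_of h2, mul_one]
    by_cases h3 : gI n (St A T ω)
    · rw [if_pos h3, if_pos ⟨mem_St.2 ⟨⟨by omega, h1⟩, h2⟩, h3⟩]
    · rw [if_neg h3, if_neg (fun h => h3 h.2)]
  · rw [In_of_not h2, mul_zero, if_neg (fun h => h2 (mem_St.1 h.1).2)]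

lemma W_small {n T : ℕ} (hn : 3 ≤ n) (hT : T < 2) (ω : Ω) : W A (gI n) T ω = 0 := by
  classical
  unfold W
  rw [if_neg]
  rintro ⟨h1, _⟩
  have h2 : (St A T ω).card ≤ T := by
    have : St A T ω ⊆ Finset.Icc 1 T := by
      intro m hm; rw [mem_St] at hm; exact Finset.mem_Icc.2 hm.1
    have := Finset.card_le_card this
    rwa [Nat.card_Icc, Nat.add_sub_cancel] at this
  have h3 := Nat.le_of_dvd (by omega) h1
  omega

lemma sum_G9 {n : ℕ} (hn : 3 ≤ n) (X : ℕ → ℝ) (M : ℕ) (ω : Ω) :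
    ∑ T ∈ Finset.Ico 2 M, G9 n T (St A ((T + 1) ^ 2 - 3) ω) * X (T + 1) =
      ∑ T ∈ Finset.range M, W A (gI n) T ω * X (T + 1) * In A (T + 1) ω := by
  have h1 : ∑ T ∈ Finset.Ico 2 M, G9 n T (St A ((T + 1) ^ 2 - 3) ω) * X (T + 1) =
      ∑ T ∈ Finset.Ico 2 M, W A (gI n) T ω * X (T + 1) * In A (T + 1) ω := by
    refine Finset.sum_congr rfl fun T hT => ?_
    rw [Finset.mem_Ico] at hT
    rw [G9_eq n hT.1]
    ring
  rw [h1, Finset.range_eq_Ico]
  refine Finset.sum_subset (Finset.Ico_subset_Ico_left (by omega)) fun T hT hT2 => ?_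
  rw [Finset.mem_Ico] at hT hT2
  rw [W_small hn (by omega), zero_mul, zero_mul]

lemma D4 : ∀ᶠ n : ℕ in atTop, (n : ℝ) ^ 4 / Real.log n ^ 17 ≤ (((n * ⌊(n : ℝ) / Real.log n ^ 3⌋₊) ^ 2 - 2 : ℕ) : ℝ) ∧
    (((n * ⌊(n : ℝ) / Real.log n ^ 3⌋₊) ^ 2 - 2 : ℕ) : ℝ) ≤ (n : ℝ) ^ 4 * Real.log n ^ 17 := by
  filter_upwards [D1, hlogn.eventually_ge_atTop 2, ev_pow 4] with n h1 hL h4
  set y := ⌊(n : ℝ) / Real.log n ^ 3⌋₊ with hy
  set L := Real.log n
  have hL0 : 0 < L := by linarith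
  have hL1 : 1 ≤ L := by linarith
  have hn16 : (16 : ℝ) ≤ n := by
    calc (16 : ℝ) = 2 ^ 4 := by norm_num
      _ ≤ L ^ 4 := pow_le_pow_left₀ (by norm_num) hL 4
      _ ≤ n := h4
  have hn : (0 : ℝ) < n := by linarith
  rw [pow_one] at h1
  have hy1 : (1 : ℝ) ≤ y := by
    have : 1 ≤ (n : ℝ) / L ^ 4 := by rw [one_le_div (by positivity)]; exact h4
    exact this.trans h1.1
  have hyn : (y : ℝ) ≤ n := by
    have : (y : ℝ) ≤ (n : ℝ) / L ^ 3 := Nat.floor_le (by positivity)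
    exact this.trans (div_le_self hn.le (one_le_pow₀ hL1))
  have h5 : 4 ≤ (n * y) ^ 2 := by
    have a1 : 1 ≤ y := by exact_mod_cast hy1
    have a2 : 16 ≤ n := by exact_mod_cast hn16
    have a3 : 2 ≤ n * y := by nlinarith
    nlinarith
  have h6 : (((n * y) ^ 2 - 2 : ℕ) : ℝ) = ((n : ℝ) * y) ^ 2 - 2 := by
    rw [Nat.cast_sub (by omega)]; push_cast; ring
  rw [h6]
  constructor
  · have a1 : (n : ℝ) ^ 2 / L ^ 4 ≤ n * y := by
      calc (n : ℝ) ^ 2 / L ^ 4 = n * (n / L ^ 4) := by ring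
        _ ≤ _ := mul_le_mul_of_nonneg_left h1.1 hn.le
    have a2 : ((n : ℝ) ^ 2 / L ^ 4) ^ 2 ≤ ((n : ℝ) * y) ^ 2 := pow_le_pow_left₀ (by positivity) a1 2
    have a3 : (n : ℝ) ^ 4 / L ^ 17 ≤ ((n : ℝ) ^ 2 / L ^ 4) ^ 2 / 2 := by
      have b1 : ((n : ℝ) ^ 2 / L ^ 4) ^ 2 / 2 = (n : ℝ) ^ 4 / (2 * L ^ 8) := by field_simp
      rw [b1]
      apply div_le_div_of_nonneg_left (by positivity) (by positivity)
      calc 2 * L ^ 8 ≤ L * L ^ 8 := by gcongr
        _ = L ^ 9 := by ring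
        _ ≤ L ^ 17 := pow_le_pow_right₀ hL1 (by norm_num)
    have a4 : (4 : ℝ) ≤ ((n : ℝ) * y) ^ 2 := by
      have : (4 : ℝ) ≤ (((n * y) ^ 2 : ℕ) : ℝ) := by exact_mod_cast h5
      push_cast at this
      exact this
    linarith
  · have a1 : ((n : ℝ) * y) ^ 2 ≤ ((n : ℝ) * n) ^ 2 := pow_le_pow_left₀ (by positivity) (mul_le_mul_of_nonneg_left hyn hn.le) 2
    have a2 : ((n : ℝ) * n) ^ 2 = (n : ℝ) ^ 4 := by ring
    have a3 : (n : ℝ) ^ 4 ≤ (n : ℝ) ^ 4 * L ^ 17 := le_mul_of_one_le_right (by positivity) (one_le_pow₀ hL1)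
    linarith

lemma U4 : ∀ᶠ n : ℕ in atTop, (n : ℝ) ^ 4 / Real.log n ^ 17 ≤ ((Mi n ^ 2 : ℕ) : ℝ) ∧
    ((Mi n ^ 2 : ℕ) : ℝ) ≤ (n : ℝ) ^ 4 * Real.log n ^ 17 := by
  filter_upwards [Mi_bounds, hlogn.eventually_ge_atTop (2 ^ 16)] with n h1 hL
  set L := Real.log n
  have hL1 : 1 ≤ L := by
    have : (1 : ℝ) ≤ 2 ^ 16 := by norm_num
    linarith
  have hL0 : 0 < L := by linarith
  push_cast
  constructor
  · have a1 : ((n : ℝ) ^ 2 * L ^ 8) ^ 2 ≤ (Mi n : ℝ) ^ 2 := pow_le_pow_left₀ (by positivity) h1.1 2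
    refine le_trans ?_ a1
    calc (n : ℝ) ^ 4 / L ^ 17 ≤ (n : ℝ) ^ 4 := div_le_self (by positivity) (one_le_pow₀ hL1)
      _ ≤ (n : ℝ) ^ 4 * L ^ 16 := le_mul_of_one_le_right (by positivity) (one_le_pow₀ hL1)
      _ = _ := by ring
  · have a1 : (Mi n : ℝ) ^ 2 ≤ ((n : ℝ) ^ 2 * (2 * L) ^ 8) ^ 2 := pow_le_pow_left₀ (Nat.cast_nonneg _) h1.2 2
    refine a1.trans ?_
    calc ((n : ℝ) ^ 2 * (2 * L) ^ 8) ^ 2 = (n : ℝ) ^ 4 * (2 ^ 16 * L ^ 16) := by ring
      _ ≤ (n : ℝ) ^ 4 * (L * L ^ 16) := by gcongr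
      _ = _ := by ring

open Classical in
/-- **the law** -/
theorem law971 (hA : ∀ n, MeasurableSet[ℱ n] (A n)) {P : ℕ} (hP : 0 < P)
    (hsv : ∀ n, ¬ Nat.Coprime n P → A n = ∅)
    (hd : ∀ᵐ ω ∂μ, ∀ ε > 0, ∀ᶠ T : ℕ in atTop, |dens μ ℱ A T ω - rho P (T + 1)| ≤ ε * rho P (T + 1)) :
    ∀ᵐ ω ∂μ, (setOf (sp A ω)).Infinite ∧
      Tendsto (fun n : ℕ => (((KK A ω n).filter (fun k => ω ∈ A (pe A ω (k * n) ^ 2 - 2))).card : ℝ) * Real.log n ^ 2 / n) atTop
      (𝓝 (kap P ^ 2 * (c1 P / P) * (c2 P / Nat.totient P) / 4)) := by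
  have hP' : (0 : ℝ) < P := by exact_mod_cast hP
  have hφ : (0 : ℝ) < Nat.totient P := by exact_mod_cast Nat.totient_pos.2 hP
  have hκ := kap_pos hP
  have hc1 : (0 : ℝ) < c1 P := by exact_mod_cast c1_pos hP
  have hc2 : (0 : ℝ) < c2 P := by exact_mod_cast c2_pos hP
  filter_upwards [gap (μ := μ) hA hP hd, KK_law (μ := μ) hA hP hd,
    index_law (μ := μ) hA hP hd gI Mi 3 Mi_le,
    sq_law (μ := μ) hA (rho P) (rho_nonneg hP) hd G9 (fun n T U => by unfold G9; split_ifs <;> norm_num) Mi] with ω w1 w2 w3 w4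
  have hinf := infinite_of_gap w1
  refine ⟨hinf, ?_⟩
  have hcard := card_Mi w1
  set c := kap P * ((c1 P : ℝ) / P) with hc
  have hc0 : 0 < c := by positivity
  set v := (c2 P : ℝ) / Nat.totient P with hv
  have hv0 : 0 < v := by positivity
  have w2' : Tendsto (fun n : ℕ => ((KK A ω n).card : ℝ) * Real.log n ^ 1 / n) atTop (𝓝 c) := by simpa using w2
  obtain ⟨hKinf, hKs⟩ := big_of hc0 w2'
  -- the numbers `k` with `p_{kn}^2 - 2` prime to `P`
  set VV : ℕ → Finset ℕ := fun n => (KK A ω n).filter (fun k => gd P (pe A ω (k * n))) with hVV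
  have hΘ : ∀ᶠ n : ℕ in atTop, Th A (gI n) (Mi n) ω = ((KK A ω n).card : ℝ) := by
    filter_upwards [hcard, eventually_ge_atTop 4] with n h1 h2
    have := sum_kn hinf h2 h1 (fun _ => 1)
    simp only [mul_one, Finset.sum_const, nsmul_eq_mul] at this
    exact this
  have hKn : ∀ n, (KK A ω n).card ≤ n := by
    intro n
    calc _ ≤ (Finset.Icc 1 n).card := Finset.card_le_card (Finset.filter_subset _ _)
      _ = n := by rw [Nat.card_Icc, Nat.add_sub_cancel]
  have hV1 : ∀ᶠ n : ℕ in atTop, ∑ a ∈ (Cl P).filter (fun a => gd P a), Ta A (gI n) P a (Mi n) ω = ((VV n).card : ℝ) := by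
    filter_upwards [hcard, eventually_ge_atTop 4] with n h1 h2
    have e1 := sum_kn hinf h2 h1 (fun m => if gd P m then 1 else 0)
    have e2 : ∑ k ∈ KK A ω n, (if gd P (pe A ω (k * n)) then (1 : ℝ) else 0) = ((VV n).card : ℝ) := by
      rw [← Finset.sum_filter, Finset.sum_const, nsmul_eq_mul, mul_one]
    rw [← e2, ← e1]
    unfold Ta
    rw [Finset.sum_comm]
    refine Finset.sum_congr rfl fun T _ => ?_
    by_cases hT : ω ∈ A (T + 1)
    · have hcop : Nat.Coprime (T + 1) P := by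
        by_contra hcc
        rw [hsv _ hcc] at hT
        exact hT
      rw [← Finset.sum_mul, ← Finset.mul_sum, Finset.sum_ite_eq]
      have hmem : (T + 1) % P ∈ Cl P := by
        unfold Cl
        rw [Finset.mem_filter, Finset.mem_range]
        exact ⟨Nat.mod_lt _ hP, cop_mod.2 hcop⟩
      by_cases hg : gd P (T + 1)
      · rw [if_pos hg, if_pos (by rw [Finset.mem_filter]; exact ⟨hmem, gd_mod.2 hg⟩)]
      · rw [if_neg hg, if_neg (by rw [Finset.mem_filter]; exact fun h => hg (gd_mod.1 h.2))]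
    · rw [In_of_not hT]; simp
  have hVK : Tendsto (fun n : ℕ => ((VV n).card : ℝ) / (KK A ω n).card) atTop (𝓝 v) := by
    refine ratio_tendsto _ _ (fun n : ℕ => c2 P * (20 * (√(n : ℝ) * Real.log n ^ 5))) v (fun ε hε => ⟨0, ?_⟩) hKinf ?_
    · filter_upwards [w3 (ε / c2 P) (by positivity), hΘ, hV1] with n e1 e2 e3
      have e4 := e1 (by rw [e2]; exact_mod_cast hKn n)
      rw [e2] at e4
      rw [← e3]
      have e5 : v * ((KK A ω n).card : ℝ) = ∑ a ∈ (Cl P).filter (fun a => gd P a), ((KK A ω n).card : ℝ) / Nat.totient P := by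
        rw [Finset.sum_const, nsmul_eq_mul]
        have : (((Cl P).filter (fun a => gd P a)).card : ℝ) = c2 P := rfl
        rw [this, hv]; ring
      rw [e5, ← Finset.sum_sub_distrib]
      refine (Finset.abs_sum_le_sum_abs _ _).trans ?_
      have e6 : ∀ a ∈ (Cl P).filter (fun a => gd P a), |Ta A (gI n) P a (Mi n) ω - ((KK A ω n).card : ℝ) / Nat.totient P| ≤
          ε / c2 P * ((KK A ω n).card : ℝ) + 20 * (√(n : ℝ) * Real.log n ^ 5) := fun a ha => e4 a (Finset.mem_filter.1 ha).1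
      refine (Finset.sum_le_sum e6).trans ?_
      rw [Finset.sum_const, nsmul_eq_mul]
      have : (((Cl P).filter (fun a => gd P a)).card : ℝ) = c2 P := rfl
      rw [this]
      refine le_of_eq ?_
      field_simp
      ring
    · have := (hKs 5).const_mul ((c2 P : ℝ) * 20)
      rw [mul_zero] at this
      refine this.congr fun n => ?_
      ring
  have hVL : Tendsto (fun n : ℕ => ((VV n).card : ℝ) * Real.log n / n) atTop (𝓝 (v * c)) := by
    refine (hVK.mul w2).congr' ?_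
    filter_upwards [hKinf.eventually_gt_atTop 0] with n hn
    field_simp
  have hVL' : Tendsto (fun n : ℕ => ((VV n).card : ℝ) * Real.log n ^ 1 / n) atTop (𝓝 (v * c)) := by simpa using hVL
  obtain ⟨hVinf, hVs⟩ := big_of (by positivity) hVL'
  -- the expected number
  have hpe : ∀ᶠ n : ℕ in atTop, ∀ k ∈ KK A ω n, k * n ≤ pe A ω (k * n) ∧ pe A ω (k * n) ≤ Mi n := by
    filter_upwards [hcard, eventually_ge_atTop 4] with n h1 h2 k hk
    unfold KK at hk
    rw [Finset.mem_filter, Finset.mem_Icc] at hk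
    have a2 : 1 ≤ k * n := Nat.mul_pos hk.1.1 (by omega)
    refine ⟨pe_ge hinf a2, (pe_le_iff hinf a2).2 (le_trans ?_ h1)⟩
    rw [sq]; exact Nat.mul_le_mul_right n hk.1.2
  have hslow := slow_sum VV (fun n k => pe A ω (k * n) ^ 2 - 2) (fun n => Mi n ^ 2)
    (fun n => (n * ⌊(n : ℝ) / Real.log n ^ 3⌋₊) ^ 2 - 2) 4 (by norm_num)
    (Eventually.of_forall fun n => (Finset.filter_subset _ _).trans (Finset.filter_subset _ _))
    (by filter_upwards [hVinf.eventually_gt_atTop 0] with n hn; exact_mod_cast hn)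
    (by
      filter_upwards [hpe] with n h1 k hk
      have h2 := (h1 k (Finset.mem_filter.1 hk).1).2
      have := Nat.pow_le_pow_left h2 2
      omega)
    (by
      filter_upwards [hpe, eventually_ge_atTop 1] with n h1 hn1 k hk hk2
      have h2 := (h1 k (Finset.mem_filter.1 hk).1).1
      have h3 : ⌊(n : ℝ) / Real.log n ^ 3⌋₊ ≤ k := Nat.floor_le_of_le hk2.le
      have h4 : n * ⌊(n : ℝ) / Real.log n ^ 3⌋₊ ≤ pe A ω (k * n) := by
        calc _ ≤ n * k := Nat.mul_le_mul_left n h3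
          _ = k * n := Nat.mul_comm _ _
          _ ≤ _ := h2
      have := Nat.pow_le_pow_left h4 2
      omega)
    (by have := lf_ratio (a := 4) (by norm_num) U4; exact_mod_cast this)
    (by have := lf_ratio (a := 4) (by norm_num) D4; exact_mod_cast this)
    (small_ratio (by positivity) hVL)
  set R : ℕ → ℝ := fun n => ∑ k ∈ KK A ω n, rho P (pe A ω (k * n) ^ 2 - 2) with hR
  have hRe : ∀ᶠ n : ℕ in atTop, R n = kap P * ∑ k ∈ VV n, lf (pe A ω (k * n) ^ 2 - 2) := by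
    filter_upwards [hpe, eventually_ge_atTop 4] with n h1 h2
    simp only [hR, hVV]
    rw [Finset.mul_sum, Finset.sum_filter]
    refine Finset.sum_congr rfl fun k hk => ?_
    have h3 := (h1 k hk).1
    unfold KK at hk
    rw [Finset.mem_filter, Finset.mem_Icc] at hk
    have h4 : 2 ≤ pe A ω (k * n) := by
      have : 1 * 4 ≤ k * n := Nat.mul_le_mul hk.1.1 h2
      omega
    unfold rho
    by_cases hg : gd P (pe A ω (k * n))
    · rw [if_pos hg, if_pos ((gd_iff hP h4).2 hg)]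
    · rw [if_neg hg, if_neg (fun h => hg ((gd_iff hP h4).1 h))]
  have hRL : Tendsto (fun n : ℕ => R n * Real.log n ^ 2 / n) atTop (𝓝 (kap P * (v * c) / 4)) := by
    have h1 := ((hslow.mul hVL).const_mul (kap P)).div_const 4
    rw [one_mul] at h1
    refine h1.congr' ?_
    filter_upwards [hRe, hVinf.eventually_gt_atTop 0, eventually_ge_atTop 1] with n e1 e2 e3
    have hn : (0 : ℝ) < n := by exact_mod_cast e3
    rw [e1]
    field_simp
  obtain ⟨hRinf, hRs⟩ := big_of (by positivity) hRL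
  -- the number
  have hN : Tendsto (fun n : ℕ => (((KK A ω n).filter (fun k => ω ∈ A (pe A ω (k * n) ^ 2 - 2))).card : ℝ) / R n) atTop (𝓝 1) := by
    refine ratio_tendsto _ _ (fun n : ℕ => 2 * √(((n : ℝ) + 1) * Real.log n)) 1 (fun ε hε => ?_) hRinf ?_
    · obtain ⟨C, hC⟩ := w4 ε hε
      refine ⟨C, ?_⟩
      filter_upwards [hC, hcard, eventually_ge_atTop 4] with n e1 e2 e3
      have f1 := sum_G9 (A := A) (n := n) (by omega) (fun m => In A (m ^ 2 - 2) ω) (Mi n) ω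
      have f2 := sum_G9 (A := A) (n := n) (by omega) (fun m => rho P (m ^ 2 - 2)) (Mi n) ω
      have f3 := sum_G9 (A := A) (n := n) (by omega) (fun _ => 1) (Mi n) ω
      rw [sum_kn hinf e3 e2 (fun m => In A (m ^ 2 - 2) ω)] at f1
      rw [sum_kn hinf e3 e2 (fun m => rho P (m ^ 2 - 2))] at f2
      rw [sum_kn hinf e3 e2 (fun _ => 1)] at f3
      simp only [mul_one, Finset.sum_const, nsmul_eq_mul] at f3
      have e4 := e1 (by rw [f3]; exact_mod_cast hKn n)
      rw [f1, f2] at e4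
      have f4 : ∑ k ∈ KK A ω n, In A (pe A ω (k * n) ^ 2 - 2) ω =
          (((KK A ω n).filter (fun k => ω ∈ A (pe A ω (k * n) ^ 2 - 2))).card : ℝ) := by
        rw [Finset.card_eq_sum_ones, Finset.sum_filter]
        push_cast
        refine Finset.sum_congr rfl fun k _ => ?_
        unfold In indicator
        rfl
      rw [f4] at e4
      rw [one_mul]
      exact e4
    · have h1 := (hRs 1).const_mul 4
      rw [mul_zero] at h1
      refine squeeze_zero' ?_ ?_ h1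
      · filter_upwards [hRinf.eventually_gt_atTop 0] with n hn
        positivity
      · filter_upwards [hRinf.eventually_gt_atTop 0, eventually_ge_atTop 1, hlogn.eventually_ge_atTop 1] with n e1 e2 e3
        have hn : (1 : ℝ) ≤ n := by exact_mod_cast e2
        have hs : 0 < √(n : ℝ) := Real.sqrt_pos.2 (by linarith)
        have e4 : √(((n : ℝ) + 1) * Real.log n) ≤ 2 * (√(n : ℝ) * Real.log n) := by
          rw [← Real.sqrt_sq (show (0 : ℝ) ≤ 2 * (√(n : ℝ) * Real.log n) by positivity)]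
          apply Real.sqrt_le_sqrt
          rw [mul_pow, mul_pow, Real.sq_sqrt (by linarith)]
          calc ((n : ℝ) + 1) * Real.log n ≤ (2 * n) * Real.log n := by gcongr; linarith
            _ ≤ (2 * n) * Real.log n ^ 2 := by gcongr; nlinarith
            _ ≤ _ := by nlinarith [pow_pos (by linarith : (0 : ℝ) < Real.log n) 2]
        rw [pow_one, ← mul_div_assoc]
        apply div_le_div_of_nonneg_right _ e1.le
        linarith
  have hfin := hN.mul hRL
  rw [one_mul] at hfin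
  have hval : kap P * (v * c) / 4 = kap P ^ 2 * (c1 P / P) * v / 4 := by rw [hc]; ring
  rw [hval] at hfin
  refine hfin.congr' ?_
  filter_upwards [hRinf.eventually_gt_atTop 0] with n hn
  field_simp

end Pool.Agent.U310.Idx
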