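import Mathlib
import Pool.Agent.U310.Idx.F971

set_option autoImplicit false
set_option linter.unusedSectionVars false

/-! # Equidistribution of `p_{kn}`; the model -/

open MeasureTheory Filter Set
open scoped ENNReal Topology

namespace Pool.Agent.U310.Idx

open Pool.Agent.R528.RM

variable {Ω : Type} {m0 : MeasurableSpace Ω} {μ : Measure Ω} [IsProbabilityMeasure μ]
  {ℱ : Filtration ℕ m0} {A : ℕ → Set Ω}

open Classical in
theorem equi971 (hA : ∀ n, MeasurableSet[ℱ n] (A n)) {P : ℕ} (hP : 0 < P)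
    (hd : ∀ᵐ ω ∂μ, ∀ ε > 0, ∀ᶠ T : ℕ in atTop, |dens μ ℱ A T ω - rho P (T + 1)| ≤ ε * rho P (T + 1)) :
    ∀ᵐ ω ∂μ, ∀ a : ℕ, a < P → Nat.Coprime a P →
      Tendsto (fun n : ℕ => (((KK A ω n).filter (fun k => pe A ω (k * n) % P = a)).card : ℝ) / (KK A ω n).card) atTop
      (𝓝 (1 / Nat.totient P)) := by
  have hP' : (0 : ℝ) < P := by exact_mod_cast hP
  have hφ : (0 : ℝ) < Nat.totient P := by exact_mod_cast Nat.totient_pos.2 hP
  have hκ := kap_pos hP
  have hc1 : (0 : ℝ) < c1 P := by exact_mod_cast c1_pos hP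
  filter_upwards [gap (μ := μ) hA hP hd, KK_law (μ := μ) hA hP hd,
    index_law (μ := μ) hA hP hd gI Mi 3 Mi_le] with ω w1 w2 w3
  intro a ha hac
  have haC : a ∈ Cl P := by unfold Cl; rw [Finset.mem_filter, Finset.mem_range]; exact ⟨ha, hac⟩
  have hinf := infinite_of_gap w1
  have hcard := card_Mi w1
  have w2' : Tendsto (fun n : ℕ => ((KK A ω n).card : ℝ) * Real.log n ^ 1 / n) atTop (𝓝 (kap P * ((c1 P : ℝ) / P))) := by
    simpa using w2
  obtain ⟨hKinf, hKs⟩ := big_of (by positivity) w2'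
  refine ratio_tendsto _ _ (fun n : ℕ => 20 * (√(n : ℝ) * Real.log n ^ 5)) _ (fun ε hε => ⟨0, ?_⟩) hKinf ?_
  · filter_upwards [w3 ε hε, hcard, eventually_ge_atTop 4] with n e1 h1 h2
    have e2 : Th A (gI n) (Mi n) ω = ((KK A ω n).card : ℝ) := by
      have := sum_kn hinf h2 h1 (fun _ => 1)
      simp only [mul_one, Finset.sum_const, nsmul_eq_mul] at this
      exact this
    have hKn : (KK A ω n).card ≤ n := by
      calc _ ≤ (Finset.Icc 1 n).card := Finset.card_le_card (Finset.filter_subset _ _)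
        _ = n := by rw [Nat.card_Icc, Nat.add_sub_cancel]
    have e3 : Ta A (gI n) P a (Mi n) ω = (((KK A ω n).filter (fun k => pe A ω (k * n) % P = a)).card : ℝ) := by
      have e5 := sum_kn hinf h2 h1 (fun m => if m % P = a then 1 else 0)
      have e6 : ∑ k ∈ KK A ω n, (if pe A ω (k * n) % P = a then (1 : ℝ) else 0) =
          (((KK A ω n).filter (fun k => pe A ω (k * n) % P = a)).card : ℝ) := by
        rw [← Finset.sum_filter, Finset.sum_const, nsmul_eq_mul, mul_one]
      rw [← e6, ← e5]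
      unfold Ta
      rfl
    have e4 := e1 (by rw [e2]; exact_mod_cast hKn) a haC
    rw [e2, e3] at e4
    have e7 : 1 / (Nat.totient P : ℝ) * ((KK A ω n).card : ℝ) = ((KK A ω n).card : ℝ) / Nat.totient P := by ring
    rw [e7, add_zero]
    exact e4
  · have := (hKs 5).const_mul (20 : ℝ)
    rw [mul_zero] at this
    refine this.congr fun n => ?_
    ring

/-- the conditional probabilities of a model -/
lemma dens_of_model {P : ℕ} (hP : 0 < P) (hsv : ∀ n, ¬ Nat.Coprime n P → A n = ∅)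
    (hden : ∀ᵐ ω ∂μ, Tendsto (fun n : ℕ =>
      (μ[(A (n + 1)).indicator (fun _ => (1 : ℝ)) | ℱ n]) ω * Real.log n * ((Nat.totient P : ℝ) / P))
      (atTop ⊓ 𝓟 {n : ℕ | Nat.Coprime (n + 1) P}) (𝓝 1)) :
    ∀ᵐ ω ∂μ, ∀ ε > 0, ∀ᶠ T : ℕ in atTop, |dens μ ℱ A T ω - rho P (T + 1)| ≤ ε * rho P (T + 1) := by
  have hP' : (0 : ℝ) < P := by exact_mod_cast hP
  have hφ : (0 : ℝ) < Nat.totient P := by exact_mod_cast Nat.totient_pos.2 hP
  filter_upwards [hden] with ω hω
  intro ε hε
  have hr : Tendsto (fun n : ℕ => Real.log ((n + 1 : ℕ) : ℝ) / Real.log n) atTop (𝓝 1) := by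
    have := log_ratio (U := fun n => n + 1) (a := 1) (c := 1) (by
      filter_upwards [hlogn.eventually_ge_atTop 2, eventually_ge_atTop 1] with n hn h1
      have hn1 : (1 : ℝ) ≤ n := by exact_mod_cast h1
      push_cast
      rw [pow_one, pow_one]
      constructor
      · rw [div_le_iff₀ (by linarith)]; nlinarith
      · nlinarith)
    simpa using this
  have h1 : Tendsto (fun n : ℕ => dens μ ℱ A n ω * Real.log n * ((Nat.totient P : ℝ) / P) *
      (Real.log ((n + 1 : ℕ) : ℝ) / Real.log n)) (atTop ⊓ 𝓟 {n : ℕ | Nat.Coprime (n + 1) P}) (𝓝 (1 * 1)) :=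
    hω.mul (hr.mono_left inf_le_left)
  rw [one_mul] at h1
  have h2 := (Metric.tendsto_nhds.1 h1) ε hε
  rw [Filter.eventually_inf_principal] at h2
  filter_upwards [h2, eventually_ge_atTop 3, hlogn.eventually_gt_atTop 0] with T e1 e2 e3
  by_cases hc : Nat.Coprime (T + 1) P
  · have e4 := e1 hc
    rw [Real.dist_eq] at e4
    rw [rho, if_pos hc, lf_eq (by omega)]
    have hL : 0 < Real.log ((T + 1 : ℕ) : ℝ) := Real.log_pos (by exact_mod_cast (by omega : 1 < T + 1))
    have e5 : dens μ ℱ A T ω - kap P * (1 / Real.log ((T + 1 : ℕ) : ℝ)) =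
        (dens μ ℱ A T ω * Real.log T * ((Nat.totient P : ℝ) / P) * (Real.log ((T + 1 : ℕ) : ℝ) / Real.log T) - 1) *
          (kap P * (1 / Real.log ((T + 1 : ℕ) : ℝ))) := by
      unfold kap
      field_simp
    rw [e5, abs_mul, abs_of_nonneg (show 0 ≤ kap P * (1 / Real.log ((T + 1 : ℕ) : ℝ)) by have := kap_pos hP; positivity)]
    apply mul_le_mul_of_nonneg_right e4.le
    have := kap_pos hP
    positivity
  · have e4 : dens μ ℱ A T ω = 0 := by
      unfold dens
      rw [hsv _ hc, indicator_empty]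
      have : (fun _ : Ω => (0 : ℝ)) = 0 := rfl
      rw [this, condExp_zero]
      rfl
    rw [e4, rho, if_neg hc]
    simp

end Pool.Agent.U310.Idx
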